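import Pool.Agent.Helper83.SA.Weight

/-!
# Strong arboricity (MP_96bd24_co): the extension steps
-/

namespace Pool.Agent.Helper83.SA

open Finset
open scoped Classical

variable {V : Type*}

/-- Removing one copy of the edge `x y` from a good colouring. -/
theorem Good.delEdge {m m' : V → V → ℕ} {H : Fin 4 → SimpleGraph V} (hH : Good m' H)
    {x y : V} (hm : ∀ p q, m' p q = m p q + dl x y p q) {c₀ : Fin 4}
    (hadj : (H c₀).Adj x y) : Good m (del H c₀ x y) := by
  have hadj_iff : ∀ p q, (del H c₀ x y c₀).Adj p q ↔ ((H c₀).Adj p q ∧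
      ¬ ((p = x ∧ q = y) ∨ (p = y ∧ q = x))) := by
    intro p q
    rw [del_self, SimpleGraph.deleteEdges_adj]
    simp only [Set.mem_singleton_iff, Sym2.eq_iff]
  refine ⟨?_, ?_, ?_, hH.cnt.del c₀ x y⟩
  · intro c
    exact (hH.ac c).anti (del_le H c₀ x y c)
  · intro p q
    have h1 := hH.num p q
    rw [hm p q] at h1
    unfold dl at h1
    by_cases hcase : (p = x ∧ q = y) ∨ (p = y ∧ q = x)
    · rw [if_pos hcase] at h1
      have h2 : Finset.univ.filter (fun c => (del H c₀ x y c).Adj p q) =
          (Finset.univ.filter (fun c => (H c).Adj p q)).erase c₀ := by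
        ext c
        simp only [Finset.mem_filter, Finset.mem_univ, true_and, Finset.mem_erase]
        by_cases hc : c = c₀
        · rw [hc, hadj_iff]
          constructor
          · intro h; exact absurd hcase h.2
          · intro h; exact absurd rfl h.1
        · rw [del_ne H c₀ x y hc]
          exact ⟨fun h => ⟨hc, h⟩, fun h => h.2⟩
      have h3 : c₀ ∈ Finset.univ.filter (fun c => (H c).Adj p q) := by
        simp only [Finset.mem_filter, Finset.mem_univ, true_and]
        rcases hcase with ⟨h4, h5⟩ | ⟨h4, h5⟩
        · rw [h4, h5]; exact hadj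
        · rw [h4, h5]; exact hadj.symm
      rw [h2, Finset.card_erase_of_mem h3, h1]
      omega
    · rw [if_neg hcase, add_zero] at h1
      rw [← h1]
      congr 1
      ext c
      simp only [Finset.mem_filter, Finset.mem_univ, true_and]
      by_cases hc : c = c₀
      · rw [hc, hadj_iff]
        exact ⟨fun h => h.1, fun h => ⟨h, hcase⟩⟩
      · rw [del_ne H c₀ x y hc]
  · intro c p q hpos hr
    have h1 : (H c).Adj p q := hH.flat c p q (by rw [hm]; omega) (hr.mono (del_le H c₀ x y c))
    by_cases hc : c = c₀
    · rw [hc] at hr h1 ⊢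
      rw [hadj_iff]
      refine ⟨h1, ?_⟩
      intro hcase
      have h5 := (SimpleGraph.isAcyclic_iff_forall_adj_isBridge.mp (hH.ac c₀)) hadj
      rw [SimpleGraph.isBridge_iff, ← del_self] at h5
      rcases hcase with ⟨h6, h7⟩ | ⟨h6, h7⟩
      · rw [h6, h7] at hr; exact h5 hr
      · rw [h6, h7] at hr; exact h5 hr.symm
    · rw [del_ne H c₀ x y hc]; exact h1

/-- the two sides of a removed edge are not connected -/
theorem not_reachable_del {H : Fin 4 → SimpleGraph V} {c₀ : Fin 4} {x y : V}
    (hac : (H c₀).IsAcyclic) (hadj : (H c₀).Adj x y) : ¬ (del H c₀ x y c₀).Reachable x y := by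
  have h5 := (SimpleGraph.isAcyclic_iff_forall_adj_isBridge.mp hac) hadj
  rw [SimpleGraph.isBridge_iff, ← del_self] at h5
  exact h5

theorem no_triangle {G : SimpleGraph V} (hac : G.IsAcyclic) {x y z : V} (hxy : G.Adj x y)
    (hyz : G.Adj y z) (hxz : G.Adj x z) : False := by
  have h5 := (SimpleGraph.isAcyclic_iff_forall_adj_isBridge.mp hac) hxy
  rw [SimpleGraph.isBridge_iff] at h5
  apply h5
  have h1 : (G.deleteEdges {s(x, y)}).Adj x z := by
    rw [SimpleGraph.deleteEdges_adj]
    refine ⟨hxz, ?_⟩
    simp only [Set.mem_singleton_iff, Sym2.eq_iff]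
    rintro (⟨-, h⟩ | ⟨h, -⟩)
    · exact hyz.ne h.symm
    · exact hxy.ne h
  have h2 : (G.deleteEdges {s(x, y)}).Adj z y := by
    rw [SimpleGraph.deleteEdges_adj]
    refine ⟨hyz.symm, ?_⟩
    simp only [Set.mem_singleton_iff, Sym2.eq_iff]
    rintro (⟨h, -⟩ | ⟨h, -⟩)
    · exact hxz.ne h.symm
    · exact hyz.ne h.symm
  exact h1.reachable.trans h2.reachable

/-- splitting reachability at a removed edge -/
theorem reachable_or {G : SimpleGraph V} {x y z : V} (h : G.Reachable x z) :
    (G.deleteEdges {s(x, y)}).Reachable x z ∨ (G.deleteEdges {s(x, y)}).Reachable y z := by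
  have key : ∀ a b, G.Reachable a b → (G.deleteEdges {s(x, y)}).Reachable a b ∨
      (G.deleteEdges {s(x, y)}).Reachable x b ∨ (G.deleteEdges {s(x, y)}).Reachable y b := by
    intro a b hab
    obtain ⟨w⟩ := hab
    induction w with
    | nil => exact Or.inl (SimpleGraph.Reachable.refl _)
    | @cons a d b hadj _ ih =>
      by_cases he : s(a, d) = s(x, y)
      · rw [Sym2.eq_iff] at he
        rcases ih with h1 | h1
        · rcases he with ⟨-, h3⟩ | ⟨-, h3⟩
          · rw [h3] at h1; exact Or.inr (Or.inr h1)
          · rw [h3] at h1; exact Or.inr (Or.inl h1)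
        · exact Or.inr h1
      · rcases ih with h1 | h1
        · left
          have h2 : (G.deleteEdges {s(x, y)}).Adj a d := by
            rw [SimpleGraph.deleteEdges_adj]
            exact ⟨hadj, he⟩
          exact h2.reachable.trans h1
        · exact Or.inr h1
  rcases key x z h with h1 | h1 | h1
  · exact Or.inl h1
  · exact Or.inl h1
  · exact Or.inr h1

/-- attaching with at most two colours -/
theorem attach_of_le_two {m m₀ : V → V → ℕ} (v : V) (B : Fin 4 → SimpleGraph V)
    (a : Fin 4 → Option V)
    (hB : Good m₀ B) (hv : ∀ q, m₀ v q = 0)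
    (hm : ∀ p q, p ≠ v → q ≠ v → m p q = m₀ p q)
    (hmv : ∀ q, m v q = (Finset.univ.filter (fun c => a c = some q)).card)
    (hmv' : ∀ q, m q v = m v q) (hvv : m v v = 0)
    (hsep : ∀ c x q, a c = some x → 0 < m v q → (B c).Reachable x q → q = x)
    (hcard : (Finset.univ.filter (fun c => a c ≠ none)).card ≤ 2) : ∃ H', Good m H' := by
  refine attach v B a hB hv hm hmv hmv' hvv hsep ?_
  intro T hT _
  have h1 : (Finset.univ.filter (fun c => ∃ x, a c = some x ∧ Meets B c x T)).card ≤ 2 := by
    refine le_trans (Finset.card_le_card ?_) hcard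
    intro c hc
    rw [Finset.mem_filter] at hc ⊢
    obtain ⟨h1, x, hx, -⟩ := hc
    exact ⟨h1, by rw [hx]; simp⟩
  have h2 := hB.cnt T hT
  omega

/-- attaching with two colours -/
theorem attach_two {m m₀ : V → V → ℕ} (v : V) (B : Fin 4 → SimpleGraph V) (hB : Good m₀ B)
    (hv : ∀ q, m₀ v q = 0) (hm : ∀ p q, p ≠ v → q ≠ v → m p q = m₀ p q)
    (x y : V) (hmv : ∀ q, m v q = (if q = x then 1 else 0) + (if q = y then 1 else 0))
    (hmv' : ∀ q, m q v = m v q) (hvv : m v v = 0) (c₁ c₂ : Fin 4) (hc : c₁ ≠ c₂)
    (h1 : (B c₁).Reachable x y → y = x) (h2 : (B c₂).Reachable y x → x = y) :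
    ∃ H', Good m H' := by
  let a : Fin 4 → Option V := fun c => if c = c₁ then some x else if c = c₂ then some y else none
  have a1 : a c₁ = some x := by simp only [a, if_true]
  have a2 : a c₂ = some y := by simp only [a, if_neg hc.symm, if_true]
  have a3 : ∀ c, c ≠ c₁ → c ≠ c₂ → a c = none := by
    intro c h1 h2; simp only [a, if_neg h1, if_neg h2]
  refine attach_of_le_two v B a hB hv hm ?_ hmv' hvv ?_ ?_
  · intro q
    rw [hmv q]
    have e : (Finset.univ.filter (fun c => a c = some q)).card =
        ∑ c, (if c = c₁ then (if q = x then 1 else 0) else 0) +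
        ∑ c, (if c = c₂ then (if q = y then 1 else 0) else 0) := by
      rw [Finset.card_filter, ← Finset.sum_add_distrib]
      refine Finset.sum_congr rfl (fun c _ => ?_)
      by_cases e1 : c = c₁
      · rw [e1, a1]
        simp only [if_true, if_neg hc, Option.some.injEq, add_zero]
        congr 1
        exact propext eq_comm
      · by_cases e2 : c = c₂
        · rw [e2, a2]
          simp only [if_true, if_neg hc.symm, Option.some.injEq, zero_add]
          congr 1
          exact propext eq_comm
        · rw [a3 c e1 e2]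
          simp [e1, e2]
    rw [e, Finset.sum_ite_eq', Finset.sum_ite_eq']
    simp
  · intro c w q hw hpos hr
    have hq : q = x ∨ q = y := by
      by_contra hcon
      push Not at hcon
      rw [hmv q, if_neg hcon.1, if_neg hcon.2] at hpos
      exact absurd hpos (by norm_num)
    by_cases e1 : c = c₁
    · rw [e1, a1] at hw
      have hw' : x = w := by simpa using hw
      rw [← hw', e1] at hr
      rw [← hw']
      rcases hq with h | h
      · exact h
      · rw [h] at hr ⊢; exact h1 hr
    · by_cases e2 : c = c₂
      · rw [e2, a2] at hw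
        have hw' : y = w := by simpa using hw
        rw [← hw', e2] at hr
        rw [← hw']
        rcases hq with h | h
        · rw [h] at hr ⊢; exact h2 hr
        · exact h
      · rw [a3 c e1 e2] at hw
        exact absurd hw (by simp)
  · have h4 : Finset.univ.filter (fun c => a c ≠ none) ⊆ {c₁, c₂} := by
      intro c hcm
      rw [Finset.mem_filter] at hcm
      rw [Finset.mem_insert, Finset.mem_singleton]
      by_contra hcon
      push Not at hcon
      exact hcm.2 (a3 c hcon.1 hcon.2)
    exact (Finset.card_le_card h4).trans Finset.card_le_two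

/-- attaching with three colours -/
theorem attach_three {m m₀ : V → V → ℕ} (v : V) (B : Fin 4 → SimpleGraph V) (hB : Good m₀ B)
    (hv : ∀ q, m₀ v q = 0) (hm : ∀ p q, p ≠ v → q ≠ v → m p q = m₀ p q)
    (x y z : V) (hmv : ∀ q, m v q = (if q = x then 1 else 0) + (if q = y then 1 else 0) +
      (if q = z then 1 else 0))
    (hmv' : ∀ q, m q v = m v q) (hvv : m v v = 0) (c₁ c₂ c₃ : Fin 4) (h12 : c₁ ≠ c₂)
    (h13 : c₁ ≠ c₃) (h23 : c₂ ≠ c₃)
    (s1 : (B c₁).Reachable x y → y = x) (s2 : (B c₁).Reachable x z → z = x)
    (s3 : (B c₂).Reachable y x → x = y) (s4 : (B c₂).Reachable y z → z = y)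
    (s5 : (B c₃).Reachable z x → x = z) (s6 : (B c₃).Reachable z y → y = z)
    (hT : ∀ T : Finset V, Tight B T → Meets B c₁ x T → Meets B c₂ y T → Meets B c₃ z T → False) :
    ∃ H', Good m H' := by
  let a : Fin 4 → Option V := fun c => if c = c₁ then some x else if c = c₂ then some y else
    if c = c₃ then some z else none
  have a1 : a c₁ = some x := by simp only [a, if_true]
  have a2 : a c₂ = some y := by simp only [a, if_neg h12.symm, if_true]
  have a3 : a c₃ = some z := by simp only [a, if_neg h13.symm, if_neg h23.symm, if_true]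
  have a4 : ∀ c, c ≠ c₁ → c ≠ c₂ → c ≠ c₃ → a c = none := by
    intro c h1 h2 h3; simp only [a, if_neg h1, if_neg h2, if_neg h3]
  refine attach v B a hB hv hm ?_ hmv' hvv ?_ ?_
  · intro q
    rw [hmv q]
    have e : (Finset.univ.filter (fun c => a c = some q)).card =
        ∑ c, (if c = c₁ then (if q = x then 1 else 0) else 0) +
        ∑ c, (if c = c₂ then (if q = y then 1 else 0) else 0) +
        ∑ c, (if c = c₃ then (if q = z then 1 else 0) else 0) := by
      rw [Finset.card_filter, ← Finset.sum_add_distrib, ← Finset.sum_add_distrib]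
      refine Finset.sum_congr rfl (fun c _ => ?_)
      by_cases e1 : c = c₁
      · rw [e1, a1]
        simp only [if_true, if_neg h12, if_neg h13, Option.some.injEq, add_zero]
        congr 1
        exact propext eq_comm
      · by_cases e2 : c = c₂
        · rw [e2, a2]
          simp only [if_true, if_neg h12.symm, if_neg h23, Option.some.injEq, zero_add, add_zero]
          congr 1
          exact propext eq_comm
        · by_cases e3 : c = c₃
          · rw [e3, a3]
            simp only [if_true, if_neg h13.symm, if_neg h23.symm, Option.some.injEq, zero_add,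
              add_zero]
            congr 1
            exact propext eq_comm
          · rw [a4 c e1 e2 e3]
            simp [e1, e2, e3]
    rw [e, Finset.sum_ite_eq', Finset.sum_ite_eq', Finset.sum_ite_eq']
    simp
  · intro c w q hw hpos hr
    have hq : q = x ∨ q = y ∨ q = z := by
      by_contra hcon
      push Not at hcon
      rw [hmv q, if_neg hcon.1, if_neg hcon.2.1, if_neg hcon.2.2] at hpos
      exact absurd hpos (by norm_num)
    by_cases e1 : c = c₁
    · rw [e1, a1] at hw
      have hw' : x = w := by simpa using hw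
      rw [← hw', e1] at hr
      rw [← hw']
      rcases hq with h | h | h
      · exact h
      · rw [h] at hr ⊢; exact s1 hr
      · rw [h] at hr ⊢; exact s2 hr
    · by_cases e2 : c = c₂
      · rw [e2, a2] at hw
        have hw' : y = w := by simpa using hw
        rw [← hw', e2] at hr
        rw [← hw']
        rcases hq with h | h | h
        · rw [h] at hr ⊢; exact s3 hr
        · exact h
        · rw [h] at hr ⊢; exact s4 hr
      · by_cases e3 : c = c₃
        · rw [e3, a3] at hw
          have hw' : z = w := by simpa using hw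
          rw [← hw', e3] at hr
          rw [← hw']
          rcases hq with h | h | h
          · rw [h] at hr ⊢; exact s5 hr
          · rw [h] at hr ⊢; exact s6 hr
          · exact h
        · rw [a4 c e1 e2 e3] at hw
          exact absurd hw (by simp)
  · intro T hTne _
    have hlow := hB.cnt T hTne
    have hsub : Finset.univ.filter (fun c => ∃ x, a c = some x ∧ Meets B c x T) ⊆
        {c₁, c₂, c₃} := by
      intro c hcm
      rw [Finset.mem_filter] at hcm
      obtain ⟨-, w, hw, -⟩ := hcm
      simp only [Finset.mem_insert, Finset.mem_singleton]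
      by_contra hcon
      push Not at hcon
      rw [a4 c hcon.1 hcon.2.1 hcon.2.2] at hw
      exact absurd hw (by simp)
    by_cases hti : cnt B T = 2 * T.card + 2
    · -- tight: one of the blocks does not meet T
      have hnot : ¬ (Meets B c₁ x T ∧ Meets B c₂ y T ∧ Meets B c₃ z T) := fun h =>
        hT T ⟨hTne, hti⟩ h.1 h.2.1 h.2.2
      have hlt : (Finset.univ.filter (fun c => ∃ x, a c = some x ∧ Meets B c x T)).card ≤ 2 := by
        by_cases m1 : Meets B c₁ x T
        · by_cases m2 : Meets B c₂ y T
          · have m3 : ¬ Meets B c₃ z T := fun m3 => hnot ⟨m1, m2, m3⟩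
            refine le_trans (Finset.card_le_card (t := {c₁, c₂}) ?_) Finset.card_le_two
            intro c hcm
            have h1 := hsub hcm
            rw [Finset.mem_filter] at hcm
            obtain ⟨-, w, hw, hm⟩ := hcm
            simp only [Finset.mem_insert, Finset.mem_singleton] at h1 ⊢
            rcases h1 with h | h | h
            · exact Or.inl h
            · exact Or.inr h
            · exfalso
              rw [h, a3] at hw
              have hw' : z = w := by simpa using hw
              rw [h, ← hw'] at hm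
              exact m3 hm
          · refine le_trans (Finset.card_le_card (t := {c₁, c₃}) ?_) Finset.card_le_two
            intro c hcm
            have h1 := hsub hcm
            rw [Finset.mem_filter] at hcm
            obtain ⟨-, w, hw, hm⟩ := hcm
            simp only [Finset.mem_insert, Finset.mem_singleton] at h1 ⊢
            rcases h1 with h | h | h
            · exact Or.inl h
            · exfalso
              rw [h, a2] at hw
              have hw' : y = w := by simpa using hw
              rw [h, ← hw'] at hm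
              exact m2 hm
            · exact Or.inr h
        · refine le_trans (Finset.card_le_card (t := {c₂, c₃}) ?_) Finset.card_le_two
          intro c hcm
          have h1 := hsub hcm
          rw [Finset.mem_filter] at hcm
          obtain ⟨-, w, hw, hm⟩ := hcm
          simp only [Finset.mem_insert, Finset.mem_singleton] at h1 ⊢
          rcases h1 with h | h | h
          · exfalso
            rw [h, a1] at hw
            have hw' : x = w := by simpa using hw
            rw [h, ← hw'] at hm
            exact m1 hm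
          · exact Or.inl h
          · exact Or.inr h
      omega
    · have h3 : (Finset.univ.filter (fun c => ∃ x, a c = some x ∧ Meets B c x T)).card ≤ 3 :=
        (Finset.card_le_card hsub).trans Finset.card_le_three
      omega

/-- The data of an extension step: `v` has the three (not necessarily different) neighbours
`x, y, z`, and `m` agrees with `m₀` away from `v`. -/
structure Step (m m₀ : V → V → ℕ) (v x y z : V) : Prop where
  hv : ∀ q, m₀ v q = 0
  hm : ∀ p q, p ≠ v → q ≠ v → m p q = m₀ p q
  hmv : ∀ q, m v q = (if q = x then 1 else 0) + (if q = y then 1 else 0) +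
      (if q = z then 1 else 0)
  hmv' : ∀ q, m q v = m v q
  hvv : m v v = 0

theorem Step.ne {m m₀ : V → V → ℕ} {v x y z : V} (h : Step m m₀ v x y z) :
    x ≠ v ∧ y ≠ v ∧ z ≠ v := by
  have h1 := h.hvv
  rw [h.hmv v] at h1
  refine ⟨?_, ?_, ?_⟩
  · intro h2
    rw [if_pos h2.symm] at h1
    omega
  · intro h2
    rw [if_pos (h2.symm : v = y)] at h1
    omega
  · intro h2
    rw [if_pos (h2.symm : v = z)] at h1
    omega

theorem Step.swap {m m₀ : V → V → ℕ} {v x y z : V} (h : Step m m₀ v x y z) :
    Step m m₀ v y x z :=
  ⟨h.hv, h.hm, fun q => by rw [h.hmv q]; omega, h.hmv', h.hvv⟩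

theorem Step.swap' {m m₀ : V → V → ℕ} {v x y z : V} (h : Step m m₀ v x y z) :
    Step m m₀ v x z y :=
  ⟨h.hv, h.hm, fun q => by rw [h.hmv q]; omega, h.hmv', h.hvv⟩

theorem exists_ne_two (a b : Fin 4) : ∃ c, c ≠ a ∧ c ≠ b := by
  revert a b; decide

theorem exists_ne_three (a b c : Fin 4) : ∃ d, d ≠ a ∧ d ≠ b ∧ d ≠ c := by
  revert a b c; decide

/-- `v` is joined twice to `x` and once to `y`, and the edge `x y` was added and then is
removed. Case: `x` and `y` are not joined in `m₀`. -/
theorem step_D1_merge {m m₀ m' : V → V → ℕ} {v x y : V} (hxy : x ≠ y)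
    (st : Step m m₀ v x x y) (hm' : ∀ p q, m' p q = m₀ p q + dl x y p q)
    (h0 : m₀ x y = 0) (h0' : m₀ y x = 0) {H : Fin 4 → SimpleGraph V} (hH : Good m' H) :
    ∃ H', Good m H' := by
  obtain ⟨hxv, -, hyv⟩ := st.ne
  have h1 : m' x y = 1 := by
    rw [hm', h0]; unfold dl; rw [if_pos (Or.inl ⟨rfl, rfl⟩)]
  obtain ⟨c₀, hc₀⟩ := hH.exists_adj (x := x) (y := y) (by omega)
  obtain ⟨c₁, hc₁, -⟩ := exists_ne_two c₀ c₀
  refine attach_merge (m := m) (m₀ := m') v H c₀ c₁ hc₁.symm x y x hxv hyv hxv hxy hH ?_ hc₀ h1
    ?_ ?_ st.hmv' ?_ ?_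
  · intro q
    rw [hm', st.hv]
    unfold dl
    rw [if_neg]
    rintro (⟨h, -⟩ | ⟨h, -⟩)
    · exact hxv h.symm
    · exact hyv h.symm
  · intro p q hp hq
    rw [st.hm p q hp hq, hm' p q]
    unfold dl
    split_ifs with h
    · rcases h with ⟨h2, h3⟩ | ⟨h2, h3⟩
      · rw [h2, h3]; exact h0
      · rw [h2, h3]; exact h0'
    · rfl
  · intro q
    rw [st.hmv q]
    omega
  · intro q hpos _
    by_contra hcon
    push Not at hcon
    rw [st.hmv q, if_neg hcon.1, if_neg hcon.2] at hpos
    exact absurd hpos (by norm_num)
  · intro q hpos hr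
    by_contra hcon
    have hq : q = y := by
      by_contra hqy
      rw [st.hmv q, if_neg hcon, if_neg hqy] at hpos
      exact absurd hpos (by norm_num)
    rw [hq] at hr
    have h3 := hH.flat c₁ x y (by omega) hr
    have h4 := hH.num x y
    rw [h1] at h4
    have h5 : ({c₀, c₁} : Finset (Fin 4)) ⊆ Finset.univ.filter (fun c => (H c).Adj x y) := by
      intro d hd
      rw [Finset.mem_insert, Finset.mem_singleton] at hd
      rw [Finset.mem_filter]
      rcases hd with h | h
      · rw [h]; exact ⟨Finset.mem_univ _, hc₀⟩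
      · rw [h]; exact ⟨Finset.mem_univ _, h3⟩
    have h6 := Finset.card_le_card h5
    rw [Finset.card_pair hc₁.symm, h4] at h6
    omega

/-- Case: `x` and `y` are joined once in `m₀`. -/
theorem step_D1_adj {m m₀ m' : V → V → ℕ} {v x y : V}
    (st : Step m m₀ v x x y) (hm' : ∀ p q, m' p q = m₀ p q + dl x y p q)
    (h0 : m₀ x y = 1) {H : Fin 4 → SimpleGraph V} (hH : Good m' H) :
    ∃ H', Good m H' := by
  have h1 : m' x y = 2 := by
    rw [hm', h0]; unfold dl; rw [if_pos (Or.inl ⟨rfl, rfl⟩)]
  have h2 := hH.num x y
  rw [h1] at h2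
  obtain ⟨α, δ, hαδ, hset⟩ := Finset.card_eq_two.mp h2
  have hmem : ∀ c, (H c).Adj x y ↔ c = α ∨ c = δ := by
    intro c
    have h3 : c ∈ Finset.univ.filter (fun c => (H c).Adj x y) ↔ c ∈ ({α, δ} : Finset (Fin 4)) := by
      rw [hset]
    simpa using h3
  have hδ : (H δ).Adj x y := (hmem δ).mpr (Or.inr rfl)
  have hGm : Good m₀ (del H δ x y) := hH.delEdge hm' hδ
  obtain ⟨e, he1, he2⟩ := exists_ne_two α δ
  obtain ⟨f, hf1, hf2, hf3⟩ := exists_ne_three α δ e
  have hnr : ∀ c, c ≠ α → ¬ (del H δ x y c).Reachable x y := by
    intro c hcα hr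
    by_cases hc : c = δ
    · rw [hc] at hr; exact not_reachable_del (hH.ac δ) hδ hr
    · rw [del_ne H δ x y hc] at hr
      have h3 := hH.flat c x y (by omega) hr
      rcases (hmem c).mp h3 with h | h
      · exact hcα h
      · exact hc h
  refine attach_three v (del H δ x y) hGm st.hv st.hm x x y st.hmv st.hmv' st.hvv e f δ
    hf3.symm he2 hf2 (fun _ => rfl) ?_ (fun _ => rfl) ?_ ?_ ?_ ?_
  · intro h; exact absurd h (hnr e he1)
  · intro h; exact absurd h (hnr f hf1)
  · intro h; exact absurd h.symm (hnr δ hαδ.symm)
  · intro h; exact absurd h.symm (hnr δ hαδ.symm)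
  · intro T hT m1 m2 m3
    have hx := tight_singleton (del H δ x y) x
    have hU := hT.union hGm.cnt hx hf3.symm m1
      (meets_of_mem (Finset.mem_singleton_self x)) m2 (meets_of_mem (Finset.mem_singleton_self x))
    refine not_tight_of_del hH.cnt δ (hH.ac δ) hδ hU ?_ (m3.mono Finset.subset_union_left)
    exact meets_of_mem (Finset.mem_union_right _ (Finset.mem_singleton_self x))

end Pool.Agent.Helper83.SA
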