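import Mathlib

/-!
# Strong arboricity (MP_96bd24_co): definitions and basic lemmas

Woody and strongly woody edge colourings, the arboricity `arb G` and the strong arboricity
`zeta G` of a simple graph.
-/

namespace Pool.Agent.Helper83.SA

open Finset

variable {V : Type*}

/-- A colouring `c` of the edges of `G` by natural numbers is *woody* if no cycle of `G` is
monochromatic: for every cycle and every colour `i` the cycle has an edge whose colour is not
`i`. -/
def Woody (G : SimpleGraph V) (c : Sym2 V → ℕ) : Prop :=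
  ∀ (v : V) (w : G.Walk v v), w.IsCycle → ∀ i : ℕ, ∃ f ∈ w.edges, c f ≠ i

/-- A colouring `c` of the edges of `G` is *strongly woody* if no broken cycle of `G` is
monochromatic: for every cycle `w`, every edge `e` of it and every colour `i`, the cycle has an edge
different from `e` whose colour is not `i`. -/
def StronglyWoody (G : SimpleGraph V) (c : Sym2 V → ℕ) : Prop :=
  ∀ (v : V) (w : G.Walk v v), w.IsCycle → ∀ e ∈ w.edges, ∀ i : ℕ, ∃ f ∈ w.edges, f ≠ e ∧ c f ≠ i

/-- The arboricity of `G`: the least number `k` such that `G` has a woody colouring with the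
colours `0, ..., k - 1`. -/
noncomputable def arb (G : SimpleGraph V) : ℕ :=
  sInf {k : ℕ | ∃ c : Sym2 V → ℕ, (∀ e ∈ G.edgeSet, c e < k) ∧ Woody G c}

/-- The strong arboricity of `G`: the least number `k` such that `G` has a strongly woody
colouring with the colours `0, ..., k - 1`. -/
noncomputable def zeta (G : SimpleGraph V) : ℕ :=
  sInf {k : ℕ | ∃ c : Sym2 V → ℕ, (∀ e ∈ G.edgeSet, c e < k) ∧ StronglyWoody G c}

/-- The colour class of colour `i`. -/
def cls (G : SimpleGraph V) (c : Sym2 V → ℕ) (i : ℕ) : SimpleGraph V where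
  Adj x y := G.Adj x y ∧ c s(x, y) = i
  symm := ⟨fun x y h => ⟨h.1.symm, by rw [Sym2.eq_swap]; exact h.2⟩⟩
  loopless := ⟨fun x h => G.loopless.irrefl x h.1⟩

theorem cls_adj {G : SimpleGraph V} {c : Sym2 V → ℕ} {i : ℕ} {x y : V} :
    (cls G c i).Adj x y ↔ G.Adj x y ∧ c s(x, y) = i := Iff.rfl

theorem cls_le (G : SimpleGraph V) (c : Sym2 V → ℕ) (i : ℕ) : cls G c i ≤ G :=
  fun _ _ h => h.1

/-- Criterion: if every colour class is acyclic and any two adjacent vertices connected in a colour
class are adjacent in it, then the colouring is strongly woody. -/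
theorem stronglyWoody_of_flat (G : SimpleGraph V) (c : Sym2 V → ℕ)
    (h1 : ∀ i, (cls G c i).IsAcyclic)
    (h2 : ∀ i x y, G.Adj x y → (cls G c i).Reachable x y → (cls G c i).Adj x y) :
    StronglyWoody G c := by
  intro v w hw e he i
  by_contra hcon
  push Not at hcon
  induction e using Sym2.ind with
  | h x y =>
    have hxy : G.Adj x y := w.adj_of_mem_edges he
    set K : SimpleGraph V := cls G c i ⊔ SimpleGraph.fromEdgeSet {s(x, y)} with hK
    have hmem : ∀ f ∈ w.edges, f ∈ K.edgeSet := by
      intro f hf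
      have hfG : f ∈ G.edgeSet := w.edges_subset_edgeSet hf
      by_cases hfe : f = s(x, y)
      · rw [hK, SimpleGraph.edgeSet_sup]
        right
        rw [SimpleGraph.edgeSet_fromEdgeSet]
        refine ⟨hfe, ?_⟩
        rw [hfe]
        simpa using hxy.ne
      · have h3 := hcon f hf hfe
        rw [hK, SimpleGraph.edgeSet_sup]
        left
        induction f using Sym2.ind with
        | h a b => exact ⟨hfG, h3⟩
    have hcyc : (w.transfer K hmem).IsCycle := hw.transfer hmem
    have hmem2 : s(x, y) ∈ (w.transfer K hmem).edges := by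
      rw [SimpleGraph.Walk.edges_transfer]; exact he
    obtain ⟨-, hreach⟩ :=
      (SimpleGraph.adj_and_reachable_delete_edges_iff_exists_cycle (G := K)).mpr
        ⟨v, _, hcyc, hmem2⟩
    have hle : K.deleteEdges {s(x, y)} ≤ (cls G c i).deleteEdges {s(x, y)} := by
      intro a b hab
      rw [SimpleGraph.deleteEdges_adj] at hab ⊢
      refine ⟨?_, hab.2⟩
      rcases hab.1 with h | h
      · exact h
      · exact absurd h.1 hab.2
    have hr2 := hreach.mono hle
    have hr3 : (cls G c i).Reachable x y := hr2.mono (SimpleGraph.deleteEdges_le _)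
    have hadj := h2 i x y hxy hr3
    have hb := (SimpleGraph.isAcyclic_iff_forall_adj_isBridge.mp (h1 i)) hadj
    rw [SimpleGraph.isBridge_iff] at hb
    exact hb hr2

/-- The colour classes of a woody colouring are acyclic. -/
theorem Woody.isAcyclic_cls {G : SimpleGraph V} {c : Sym2 V → ℕ} (h : Woody G c) (i : ℕ) :
    (cls G c i).IsAcyclic := by
  intro v w hw
  have hcyc : (w.mapLe (cls_le G c i)).IsCycle := hw.mapLe (cls_le G c i)
  obtain ⟨f, hf, hne⟩ := h v _ hcyc i
  have hf2 : f ∈ w.edges := by
    simpa using hf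
  have h3 := w.edges_subset_edgeSet hf2
  induction f using Sym2.ind with
  | h x y => exact hne h3.2

/-- a strongly woody colouring is woody -/
theorem StronglyWoody.woody {G : SimpleGraph V} {c : Sym2 V → ℕ} (h : StronglyWoody G c) :
    Woody G c := by
  intro v w hw i
  obtain ⟨e, he⟩ := w.edges.exists_mem_of_ne_nil (by simp [hw.not_nil])
  obtain ⟨f, hf, -, hne⟩ := h v w hw e he i
  exact ⟨f, hf, hne⟩

/-- an injective colouring is strongly woody -/
theorem stronglyWoody_of_injective (G : SimpleGraph V) (c : Sym2 V → ℕ)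
    (hc : Function.Injective c) : StronglyWoody G c := by
  intro v w hw e he i
  by_contra hcon
  push Not at hcon
  have hlen := hw.three_le_length
  have hnd : w.edges.Nodup := hw.isTrail.edges_nodup
  have hl2 : w.edges.length = w.length := w.length_edges
  classical
  have hcard : w.edges.toFinset.card = w.length := by
    rw [List.toFinset_card_of_nodup hnd, hl2]
  have h4 : 2 ≤ (w.edges.toFinset.erase e).card := by
    rw [Finset.card_erase_of_mem (List.mem_toFinset.mpr he), hcard]
    omega
  obtain ⟨a, ha, b, hb, hab⟩ := Finset.one_lt_card.mp (show 1 < (w.edges.toFinset.erase e).card by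
    omega)
  rw [Finset.mem_erase, List.mem_toFinset] at ha hb
  exact hab (hc ((hcon a ha.2 ha.1).trans (hcon b hb.2 hb.1).symm))

theorem exists_injective_colouring [Fintype V] (G : SimpleGraph V) :
    ∃ (k : ℕ) (c : Sym2 V → ℕ), (∀ e ∈ G.edgeSet, c e < k) ∧ StronglyWoody G c := by
  classical
  refine ⟨Fintype.card (Sym2 V), fun e => (Fintype.equivFin (Sym2 V) e : ℕ), fun e _ => ?_, ?_⟩
  · exact (Fintype.equivFin (Sym2 V) e).2
  · refine stronglyWoody_of_injective G _ ?_
    intro a b hab
    exact (Fintype.equivFin (Sym2 V)).injective (Fin.ext hab)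

/-- The arboricity of a finite graph is attained. -/
theorem exists_woody_arb [Fintype V] (G : SimpleGraph V) :
    ∃ c : Sym2 V → ℕ, (∀ e ∈ G.edgeSet, c e < arb G) ∧ Woody G c := by
  have hne : {k : ℕ | ∃ c : Sym2 V → ℕ, (∀ e ∈ G.edgeSet, c e < k) ∧ Woody G c}.Nonempty := by
    obtain ⟨k, c, hc, hw⟩ := exists_injective_colouring G
    exact ⟨k, c, hc, hw.woody⟩
  exact Nat.sInf_mem hne

theorem zeta_le {G : SimpleGraph V} {k : ℕ} {c : Sym2 V → ℕ}
    (hc : ∀ e ∈ G.edgeSet, c e < k) (hs : StronglyWoody G c) : zeta G ≤ k :=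
  Nat.sInf_le ⟨c, hc, hs⟩

section Counting

open scoped Classical in
/-- A forest has at most `|S| - 1` edges inside a nonempty vertex set `S` (each edge is counted
twice here). -/
theorem sum_degree_le_of_isAcyclic [Fintype V] (H : SimpleGraph V) (hH : H.IsAcyclic)
    (S : Finset V) (hS : S.Nonempty) :
    ∑ v ∈ S, (S.filter (fun y => H.Adj v y)).card ≤ 2 * (S.card - 1) := by
  set H' : SimpleGraph (S : Set V) := H.induce (S : Set V) with hH'
  have hac : H'.IsAcyclic := hH.induce _
  have : Nonempty (S : Set V) := by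
    obtain ⟨x, hx⟩ := hS
    exact ⟨⟨x, hx⟩⟩
  obtain ⟨T, hT1, -, hT2⟩ :=
    (SimpleGraph.connected_top (V := (S : Set V))).exists_isTree_le_of_le_of_isAcyclic
      (le_top : H' ≤ ⊤) hac
  have h1 : T.edgeFinset.card + 1 = Fintype.card (S : Set V) := hT2.card_edgeFinset
  have h2 : H'.edgeFinset.card ≤ T.edgeFinset.card :=
    Finset.card_le_card (SimpleGraph.edgeFinset_mono hT1)
  have h3 : Fintype.card (S : Set V) = S.card := by simp
  have h4 : ∑ v : (S : Set V), H'.degree v = 2 * H'.edgeFinset.card :=
    H'.sum_degrees_eq_twice_card_edges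
  have h5 : ∑ v ∈ S, (S.filter (fun y => H.Adj v y)).card = ∑ v : (S : Set V), H'.degree v := by
    rw [← Finset.sum_coe_sort S]
    refine Finset.sum_congr rfl (fun v _ => ?_)
    rw [← SimpleGraph.card_neighborFinset_eq_degree]
    refine Finset.card_bij' (fun y hy => ⟨y, (Finset.mem_filter.mp hy).1⟩) (fun y _ => y.1)
      ?_ ?_ ?_ ?_
    · intro y hy
      rw [SimpleGraph.mem_neighborFinset]
      exact (Finset.mem_filter.mp hy).2
    · intro y hy
      rw [SimpleGraph.mem_neighborFinset] at hy
      exact Finset.mem_filter.mpr ⟨y.2, hy⟩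
    · intro y _; rfl
    · intro y _; rfl
  rw [h5, h4]
  omega

end Counting

end Pool.Agent.Helper83.SA
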