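import Pool.Agent.Helper83.SA.Tight

/-!
# Strong arboricity (MP_96bd24_co): extending four-forest colourings by a vertex
-/

namespace Pool.Agent.Helper83.SA

open Finset
open scoped Classical

variable {V : Type*}

/-- A good colouring of the multigraph with multiplicities `m` by four forests. -/
structure Good (m : V → V → ℕ) (H : Fin 4 → SimpleGraph V) : Prop where
  ac : ∀ c, (H c).IsAcyclic
  num : ∀ x y, (Finset.univ.filter (fun c => (H c).Adj x y)).card = m x y
  flat : ∀ c x y, 0 < m x y → (H c).Reachable x y → (H c).Adj x y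
  cnt : Cnt H

theorem Good.pos {m : V → V → ℕ} {H : Fin 4 → SimpleGraph V} (h : Good m H) {c : Fin 4} {x y : V}
    (hc : (H c).Adj x y) : 0 < m x y := by
  rw [← h.num x y]
  exact Finset.card_pos.mpr ⟨c, by simpa using hc⟩

theorem Good.exists_adj {m : V → V → ℕ} {H : Fin 4 → SimpleGraph V} (h : Good m H) {x y : V}
    (hm : 0 < m x y) : ∃ c, (H c).Adj x y := by
  rw [← h.num x y] at hm
  obtain ⟨c, hc⟩ := Finset.card_pos.mp hm
  exact ⟨c, by simpa using hc⟩

theorem Good.symm {m : V → V → ℕ} {H : Fin 4 → SimpleGraph V} (h : Good m H) (x y : V) :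
    m x y = m y x := by
  rw [← h.num x y, ← h.num y x]
  congr 1
  ext c
  simp [SimpleGraph.adj_comm]

/-- a vertex that is isolated in `H c` reaches only itself -/
theorem eq_of_reachable_isolated {G : SimpleGraph V} {v q : V} (hv : ∀ u, ¬ G.Adj v u)
    (h : G.Reachable v q) : v = q := by
  obtain ⟨w⟩ := h
  cases w with
  | nil => rfl
  | cons hadj _ => exact absurd hadj (hv _)

/-- Reachability in a graph obtained by attaching `v` to the block of `x`. -/
theorem reach_attach (B B₀ H' : SimpleGraph V) (v x : V)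
    (hB₀ : B₀ ≤ B) (hv : ∀ u, ¬ B.Adj v u) (hH' : ∀ p q, H'.Adj p q → B₀.Adj p q ∨
      (p = v ∧ B.Reachable x q) ∨ (q = v ∧ B.Reachable x p))
    (hB : ∀ p q, B.Adj p q → H'.Reachable p q) (hvx : H'.Adj v x) :
    (∀ p q, p ≠ v → q ≠ v → (H'.Reachable p q ↔ B.Reachable p q)) ∧
    (∀ q, q ≠ v → (H'.Reachable v q ↔ B.Reachable x q)) := by
  set φ : V → V := fun p => if p = v then x else p with hφ
  have hstep : ∀ p q, H'.Adj p q → B.Reachable (φ p) (φ q) := by
    intro p q hpq
    rcases hH' p q hpq with h | ⟨h1, h2⟩ | ⟨h1, h2⟩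
    · have h' := hB₀ h
      have hp : p ≠ v := fun hp => hv q (hp ▸ h')
      have hq : q ≠ v := fun hq => hv p (hq ▸ h'.symm)
      simp only [hφ, if_neg hp, if_neg hq]
      exact h'.reachable
    · have hq : q ≠ v := fun hq => by rw [h1, hq] at hpq; exact H'.loopless.irrefl v hpq
      simp only [hφ, h1, if_true, if_neg hq]
      exact h2
    · have hp : p ≠ v := fun hp => by rw [h1, hp] at hpq; exact H'.loopless.irrefl v hpq
      simp only [hφ, h1, if_true, if_neg hp]
      exact h2.symm
  have hfor : ∀ p q, H'.Reachable p q → B.Reachable (φ p) (φ q) := by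
    intro p q h
    obtain ⟨w⟩ := h
    induction w with
    | nil => exact SimpleGraph.Reachable.refl _
    | cons hadj _ ih => exact (hstep _ _ hadj).trans ih
  have hback : ∀ p q, B.Reachable p q → H'.Reachable p q := by
    intro p q h
    obtain ⟨w⟩ := h
    induction w with
    | nil => exact SimpleGraph.Reachable.refl _
    | cons hadj _ ih => exact (hB _ _ hadj).trans ih
  constructor
  · intro p q hp hq
    constructor
    · intro h
      have := hfor p q h
      simpa only [hφ, if_neg hp, if_neg hq] using this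
    · exact hback p q
  · intro q hq
    constructor
    · intro h
      have := hfor v q h
      simpa only [hφ, if_true, if_neg hq] using this
    · intro h
      exact hvx.reachable.trans (hback x q h)

/-- The abstract extension lemma. `a c` is a vertex to whose `B c`-block the new vertex `v` is
attached in colour `c`. -/
theorem ext_good {m : V → V → ℕ} (v : V) (B H' : Fin 4 → SimpleGraph V) (a : Fin 4 → Option V)
    (hcnt : Cnt B)
    (hac : ∀ c, (H' c).IsAcyclic)
    (hnum : ∀ x y, (Finset.univ.filter (fun c => (H' c).Adj x y)).card = m x y)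
    (hr1 : ∀ c p q, p ≠ v → q ≠ v → ((H' c).Reachable p q ↔ (B c).Reachable p q))
    (hr2 : ∀ c q, q ≠ v → ((H' c).Reachable v q ↔ ∃ x, a c = some x ∧ (B c).Reachable x q))
    (hf1 : ∀ c p q, p ≠ v → q ≠ v → 0 < m p q → (B c).Reachable p q → (H' c).Adj p q)
    (hf2 : ∀ c x q, 0 < m v q → a c = some x → (B c).Reachable x q → (H' c).Adj v q)
    (hA : ∀ T : Finset V, T.Nonempty → v ∉ T →
      2 * T.card + (Finset.univ.filter (fun c => ∃ x, a c = some x ∧ Meets B c x T)).card ≤
        cnt B T) : Good m H' := by
  have hmirr : ∀ x, m x x = 0 := by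
    intro x
    rw [← hnum x x]
    simp
  have hsymm : ∀ x y, m x y = m y x := by
    intro x y
    rw [← hnum x y, ← hnum y x]
    congr 1
    ext c
    simp [SimpleGraph.adj_comm]
  refine ⟨hac, hnum, ?_, ?_⟩
  · intro c p q hm hr
    by_cases hp : p = v
    · by_cases hq : q = v
      · rw [hp, hq, hmirr] at hm; exact absurd hm (lt_irrefl 0)
      · rw [hp] at hm hr ⊢
        obtain ⟨x, hx1, hx2⟩ := (hr2 c q hq).mp hr
        exact hf2 c x q hm hx1 hx2
    · by_cases hq : q = v
      · rw [hq] at hm hr ⊢
        obtain ⟨x, hx1, hx2⟩ := (hr2 c p hp).mp hr.symm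
        exact (hf2 c x p (by rw [hsymm]; exact hm) hx1 hx2).symm
      · exact hf1 c p q hp hq hm ((hr1 c p q hp hq).mp hr)
  · intro T hT
    by_cases hv : v ∈ T
    · set T₀ := T.erase v with hT₀
      have hcard : T.card = T₀.card + 1 := by
        rw [hT₀, Finset.card_erase_add_one hv]
      have hTi : T = insert v T₀ := (Finset.insert_erase hv).symm
      rcases T₀.eq_empty_or_nonempty with h0 | h0
      · rw [hTi, h0]
        simp [cnt]
      · have hvT₀ : v ∉ T₀ := Finset.notMem_erase v T
        have hcongr : SA.cnt H' T₀ = SA.cnt B T₀ := by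
          refine cnt_congr T₀ (fun c p hp q hq => ?_)
          exact hr1 c p q (fun h => hvT₀ (h ▸ hp)) (fun h => hvT₀ (h ▸ hq))
        have hcount : SA.cnt H' T + (Finset.univ.filter
            (fun c => ∃ x, a c = some x ∧ Meets B c x T₀)).card = SA.cnt H' T₀ + 4 := by
          have h4 : SA.cnt H' T₀ + 4 = SA.cnt H' T₀ + ∑ _c : Fin 4, 1 := by simp
          rw [h4]
          unfold SA.cnt
          rw [Finset.card_filter, ← Finset.sum_add_distrib, ← Finset.sum_add_distrib]
          refine Finset.sum_congr rfl (fun c _ => ?_)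
          rw [hTi, Finset.image_insert]
          have hiff : (∃ x, a c = some x ∧ Meets B c x T₀) ↔ (H' c).connectedComponentMk v ∈
              T₀.image (fun x => (H' c).connectedComponentMk x) := by
            rw [Finset.mem_image]
            constructor
            · rintro ⟨x, hx1, q, hq, hr⟩
              have hqv : q ≠ v := fun h => hvT₀ (h ▸ hq)
              exact ⟨q, hq, mk_eq.mpr ((hr2 c q hqv).mpr ⟨x, hx1, hr⟩).symm⟩
            · rintro ⟨q, hq, hr⟩
              have hqv : q ≠ v := fun h => hvT₀ (h ▸ hq)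
              obtain ⟨x, hx1, hx2⟩ := (hr2 c q hqv).mp (mk_eq.mp hr).symm
              exact ⟨x, hx1, q, hq, hx2⟩
          by_cases h : ∃ x, a c = some x ∧ Meets B c x T₀
          · rw [if_pos h, Finset.insert_eq_of_mem (hiff.mp h)]
          · rw [if_neg h, Finset.card_insert_of_notMem (fun h' => h (hiff.mpr h'))]
        have h5 := hA T₀ h0 hvT₀
        omega
    · have hcongr : SA.cnt H' T = SA.cnt B T := by
        refine cnt_congr T (fun c p hp q hq => ?_)
        exact hr1 c p q (fun h => hv (h ▸ hp)) (fun h => hv (h ▸ hq))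
      rw [hcongr]
      exact hcnt T hT

/-- Plain attachment: `v` gets at most one edge of every colour. -/
theorem attach {m m₀ : V → V → ℕ} (v : V) (B : Fin 4 → SimpleGraph V) (a : Fin 4 → Option V)
    (hB : Good m₀ B) (hv : ∀ q, m₀ v q = 0)
    (hm : ∀ p q, p ≠ v → q ≠ v → m p q = m₀ p q)
    (hmv : ∀ q, m v q = (Finset.univ.filter (fun c => a c = some q)).card)
    (hmv' : ∀ q, m q v = m v q) (hvv : m v v = 0)
    (hsep : ∀ c x q, a c = some x → 0 < m v q → (B c).Reachable x q → q = x)
    (hA : ∀ T : Finset V, T.Nonempty → v ∉ T →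
      2 * T.card + (Finset.univ.filter (fun c => ∃ x, a c = some x ∧ Meets B c x T)).card ≤
        cnt B T) : ∃ H', Good m H' := by
  have hiso : ∀ c u, ¬ (B c).Adj v u := by
    intro c u hadj
    have h1 := hB.pos hadj
    rw [hv] at h1
    exact lt_irrefl 0 h1
  have hav : ∀ c x, a c = some x → x ≠ v := by
    intro c x hx hxv
    rw [hxv] at hx
    have h1 : 0 < m v v := by
      rw [hmv v]
      exact Finset.card_pos.mpr ⟨c, by simpa using hx⟩
    omega
  let H' : Fin 4 → SimpleGraph V := fun c =>
    match a c with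
    | none => B c
    | some x => B c ⊔ SimpleGraph.edge v x
  have hnone : ∀ c, a c = none → H' c = B c := by
    intro c hc
    simp only [H', hc]
  have hsome : ∀ c x, a c = some x → H' c = B c ⊔ SimpleGraph.edge v x := by
    intro c x hc
    simp only [H', hc]
  have hadj_pq : ∀ c p q, p ≠ v → q ≠ v → ((H' c).Adj p q ↔ (B c).Adj p q) := by
    intro c p q hp hq
    cases hc : a c with
    | none => rw [hnone c hc]
    | some x =>
      rw [hsome c x hc, SimpleGraph.sup_adj, SimpleGraph.edge_adj]
      constructor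
      · rintro (h | ⟨⟨h, -⟩ | ⟨-, h⟩, -⟩)
        · exact h
        · exact absurd h hp
        · exact absurd h hq
      · exact Or.inl
  have hadj_v : ∀ c q, q ≠ v → ((H' c).Adj v q ↔ a c = some q) := by
    intro c q hq
    cases hc : a c with
    | none =>
      rw [hnone c hc]
      constructor
      · intro h; exact absurd h (hiso c q)
      · intro h; exact absurd h (by simp)
    | some x =>
      rw [hsome c x hc, SimpleGraph.sup_adj, SimpleGraph.edge_adj]
      constructor
      · rintro (h | ⟨⟨-, h⟩ | ⟨-, h⟩, -⟩)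
        · exact absurd h (hiso c q)
        · rw [h]
        · exact absurd h hq
      · intro h
        have h' : x = q := by simpa using h
        right
        exact ⟨Or.inl ⟨rfl, h'.symm⟩, hq.symm⟩
  have hreach : ∀ c x, a c = some x →
      (∀ p q, p ≠ v → q ≠ v → ((H' c).Reachable p q ↔ (B c).Reachable p q)) ∧
      (∀ q, q ≠ v → ((H' c).Reachable v q ↔ (B c).Reachable x q)) := by
    intro c x hc
    refine reach_attach (B c) (B c) (H' c) v x le_rfl (hiso c) ?_ ?_ ?_
    · intro p q hpq
      rw [hsome c x hc, SimpleGraph.sup_adj, SimpleGraph.edge_adj] at hpq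
      rcases hpq with h | ⟨⟨h1, h2⟩ | ⟨h1, h2⟩, -⟩
      · exact Or.inl h
      · right; left
        exact ⟨h1, h2 ▸ SimpleGraph.Reachable.refl _⟩
      · right; right
        exact ⟨h2, h1 ▸ SimpleGraph.Reachable.refl _⟩
    · intro p q hpq
      rw [hsome c x hc]
      exact (SimpleGraph.sup_adj _ _ _ _ |>.mpr (Or.inl hpq)).reachable
    · exact (hadj_v c x (hav c x hc)).mpr hc
  refine ⟨H', ext_good v B H' a hB.cnt ?_ ?_ ?_ ?_ ?_ ?_ hA⟩
  · intro c
    cases hc : a c with
    | none => rw [hnone c hc]; exact hB.ac c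
    | some x =>
      rw [hsome c x hc]
      refine SimpleGraph.IsAcyclic.sup_edge_of_not_reachable ?_ (hB.ac c)
      intro h
      exact hav c x hc (eq_of_reachable_isolated (hiso c) h).symm
  · intro x y
    by_cases hx : x = v
    · by_cases hy : y = v
      · rw [hx, hy, hvv]
        simp
      · rw [hx, hmv y]
        congr 1
        ext c
        simp only [Finset.mem_filter, Finset.mem_univ, true_and]
        exact hadj_v c y hy
    · by_cases hy : y = v
      · rw [hy, hmv' x, hmv x]
        congr 1
        ext c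
        simp only [Finset.mem_filter, Finset.mem_univ, true_and]
        rw [SimpleGraph.adj_comm]
        exact hadj_v c x hx
      · rw [hm x y hx hy, ← hB.num x y]
        congr 1
        ext c
        simp only [Finset.mem_filter, Finset.mem_univ, true_and]
        exact hadj_pq c x y hx hy
  · intro c p q hp hq
    cases hc : a c with
    | none => rw [hnone c hc]
    | some x => exact (hreach c x hc).1 p q hp hq
  · intro c q hq
    cases hc : a c with
    | none =>
      rw [hnone c hc]
      constructor
      · intro h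
        exact absurd (eq_of_reachable_isolated (hiso c) h).symm hq
      · rintro ⟨x, hx, -⟩
        exact absurd hx (by simp)
    | some x =>
      rw [(hreach c x hc).2 q hq]
      constructor
      · intro h; exact ⟨x, rfl, h⟩
      · rintro ⟨x', hx', h⟩
        have : x = x' := by simpa using hx'
        rw [this]; exact h
  · intro c p q hp hq hpos hr
    rw [hadj_pq c p q hp hq]
    rw [hm p q hp hq] at hpos
    exact hB.flat c p q hpos hr
  · intro c x q hpos hx hr
    have h1 := hsep c x q hx hpos hr
    rw [h1]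
    exact (hadj_v c x (hav c x hx)).mpr hx

/-- Merging attachment: the edge `x y` of colour `c₀` is subdivided by `v`, and `v` gets one more
edge, to `u`, of colour `c₁`. -/
theorem attach_merge {m m₀ : V → V → ℕ} (v : V) (H : Fin 4 → SimpleGraph V) (c₀ c₁ : Fin 4)
    (hc : c₀ ≠ c₁) (x y u : V) (hxv : x ≠ v) (hyv : y ≠ v) (huv : u ≠ v) (hxy : x ≠ y)
    (hH : Good m₀ H) (hv : ∀ q, m₀ v q = 0)
    (hadj : (H c₀).Adj x y) (hxy1 : m₀ x y = 1)
    (hm : ∀ p q, p ≠ v → q ≠ v → m p q = if (p = x ∧ q = y) ∨ (p = y ∧ q = x) then 0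
      else m₀ p q)
    (hmv : ∀ q, m v q = (if q = x then 1 else 0) + (if q = y then 1 else 0) +
      (if q = u then 1 else 0))
    (hmv' : ∀ q, m q v = m v q)
    (hsep0 : ∀ q, 0 < m v q → (H c₀).Reachable x q → q = x ∨ q = y)
    (hsep1 : ∀ q, 0 < m v q → (H c₁).Reachable u q → q = u) : ∃ H', Good m H' := by
  have hiso : ∀ c w, ¬ (H c).Adj v w := by
    intro c w hadj
    have h1 := hH.pos hadj
    rw [hv] at h1
    exact lt_irrefl 0 h1
  -- `c₀` is the only colour of `x y`
  have honly : ∀ c, (H c).Adj x y → c = c₀ := by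
    intro c hcadj
    by_contra hne
    have h1 := hH.num x y
    rw [hxy1] at h1
    have h2 : ({c, c₀} : Finset (Fin 4)) ⊆ Finset.univ.filter (fun c => (H c).Adj x y) := by
      intro d hd
      rw [Finset.mem_insert, Finset.mem_singleton] at hd
      rw [Finset.mem_filter]
      rcases hd with h | h
      · rw [h]; exact ⟨Finset.mem_univ _, hcadj⟩
      · rw [h]; exact ⟨Finset.mem_univ _, hadj⟩
    have h3 := Finset.card_le_card h2
    rw [Finset.card_pair hne] at h3
    omega
  let H' : Fin 4 → SimpleGraph V := fun c =>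
    if c = c₀ then ((H c₀).deleteEdges {s(x, y)} ⊔ SimpleGraph.edge v x) ⊔ SimpleGraph.edge v y
    else if c = c₁ then H c₁ ⊔ SimpleGraph.edge v u else H c
  have e0 : H' c₀ = ((H c₀).deleteEdges {s(x, y)} ⊔ SimpleGraph.edge v x) ⊔
      SimpleGraph.edge v y := by
    simp only [H', if_true]
  have e1 : H' c₁ = H c₁ ⊔ SimpleGraph.edge v u := by
    simp only [H', if_neg hc.symm, if_true]
  have e2 : ∀ c, c ≠ c₀ → c ≠ c₁ → H' c = H c := by
    intro c h0 h1
    simp only [H', if_neg h0, if_neg h1]
  let a : Fin 4 → Option V := fun c => if c = c₀ then some x else if c = c₁ then some u else none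
  have a0 : a c₀ = some x := by simp only [a, if_true]
  have a1 : a c₁ = some u := by simp only [a, if_neg hc.symm, if_true]
  have a2 : ∀ c, c ≠ c₀ → c ≠ c₁ → a c = none := by
    intro c h0 h1
    simp only [a, if_neg h0, if_neg h1]
  -- adjacency in the new graphs
  have adj0 : ∀ p q, p ≠ v → q ≠ v → ((H' c₀).Adj p q ↔ ((H c₀).Adj p q ∧
      ¬ ((p = x ∧ q = y) ∨ (p = y ∧ q = x)))) := by
    intro p q hp hq
    rw [e0, SimpleGraph.sup_adj, SimpleGraph.sup_adj, SimpleGraph.edge_adj, SimpleGraph.edge_adj,
      SimpleGraph.deleteEdges_adj]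
    simp only [Set.mem_singleton_iff, Sym2.eq_iff]
    constructor
    · rintro ((h | ⟨⟨h, -⟩ | ⟨-, h⟩, -⟩) | ⟨⟨h, -⟩ | ⟨-, h⟩, -⟩)
      · exact h
      · exact absurd h hp
      · exact absurd h hq
      · exact absurd h hp
      · exact absurd h hq
    · intro h
      exact Or.inl (Or.inl h)
  have adj0v : ∀ q, q ≠ v → ((H' c₀).Adj v q ↔ (q = x ∨ q = y)) := by
    intro q hq
    rw [e0, SimpleGraph.sup_adj, SimpleGraph.sup_adj, SimpleGraph.edge_adj, SimpleGraph.edge_adj,
      SimpleGraph.deleteEdges_adj]
    constructor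
    · rintro ((h | ⟨⟨-, h⟩ | ⟨-, h⟩, -⟩) | ⟨⟨-, h⟩ | ⟨-, h⟩, -⟩)
      · exact absurd h.1 (hiso _ _)
      · exact Or.inl h
      · exact absurd h hq
      · exact Or.inr h
      · exact absurd h hq
    · rintro (h | h)
      · left; right; exact ⟨Or.inl ⟨rfl, h⟩, hq.symm⟩
      · right; exact ⟨Or.inl ⟨rfl, h⟩, hq.symm⟩
  have adj1 : ∀ p q, p ≠ v → q ≠ v → ((H' c₁).Adj p q ↔ (H c₁).Adj p q) := by
    intro p q hp hq
    rw [e1, SimpleGraph.sup_adj, SimpleGraph.edge_adj]
    constructor
    · rintro (h | ⟨⟨h, -⟩ | ⟨-, h⟩, -⟩)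
      · exact h
      · exact absurd h hp
      · exact absurd h hq
    · exact Or.inl
  have adj1v : ∀ q, q ≠ v → ((H' c₁).Adj v q ↔ q = u) := by
    intro q hq
    rw [e1, SimpleGraph.sup_adj, SimpleGraph.edge_adj]
    constructor
    · rintro (h | ⟨⟨-, h⟩ | ⟨-, h⟩, -⟩)
      · exact absurd h (hiso _ _)
      · exact h
      · exact absurd h hq
    · intro h
      right; exact ⟨Or.inl ⟨rfl, h⟩, hq.symm⟩
  have hreach0 : (∀ p q, p ≠ v → q ≠ v → ((H' c₀).Reachable p q ↔ (H c₀).Reachable p q)) ∧
      (∀ q, q ≠ v → ((H' c₀).Reachable v q ↔ (H c₀).Reachable x q)) := by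
    refine reach_attach (H c₀) ((H c₀).deleteEdges {s(x, y)}) (H' c₀) v x
      (SimpleGraph.deleteEdges_le _) (hiso c₀) ?_ ?_ ?_
    · intro p q hpq
      rw [e0, SimpleGraph.sup_adj, SimpleGraph.sup_adj, SimpleGraph.edge_adj,
        SimpleGraph.edge_adj] at hpq
      rcases hpq with (h | ⟨⟨h1, h2⟩ | ⟨h1, h2⟩, -⟩) | ⟨⟨h1, h2⟩ | ⟨h1, h2⟩, -⟩
      · exact Or.inl h
      · right; left; exact ⟨h1, h2 ▸ SimpleGraph.Reachable.refl _⟩
      · right; right; exact ⟨h2, h1 ▸ SimpleGraph.Reachable.refl _⟩
      · right; left; exact ⟨h1, h2 ▸ hadj.reachable⟩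
      · right; right; exact ⟨h2, h1 ▸ hadj.reachable⟩
    · intro p q hpq
      have hp : p ≠ v := fun h => hiso c₀ q (h ▸ hpq)
      have hq : q ≠ v := fun h => hiso c₀ p (h ▸ hpq.symm)
      have hx := ((adj0v x hxv).mpr (Or.inl rfl)).reachable
      have hy := ((adj0v y hyv).mpr (Or.inr rfl)).reachable
      by_cases hcase : (p = x ∧ q = y) ∨ (p = y ∧ q = x)
      · rcases hcase with ⟨h1, h2⟩ | ⟨h1, h2⟩
        · rw [h1, h2]; exact hx.symm.trans hy
        · rw [h1, h2]; exact hy.symm.trans hx
      · exact ((adj0 p q hp hq).mpr ⟨hpq, hcase⟩).reachable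
    · exact (adj0v x hxv).mpr (Or.inl rfl)
  have hreach1 : (∀ p q, p ≠ v → q ≠ v → ((H' c₁).Reachable p q ↔ (H c₁).Reachable p q)) ∧
      (∀ q, q ≠ v → ((H' c₁).Reachable v q ↔ (H c₁).Reachable u q)) := by
    refine reach_attach (H c₁) (H c₁) (H' c₁) v u le_rfl (hiso c₁) ?_ ?_ ?_
    · intro p q hpq
      rw [e1, SimpleGraph.sup_adj, SimpleGraph.edge_adj] at hpq
      rcases hpq with h | ⟨⟨h1, h2⟩ | ⟨h1, h2⟩, -⟩
      · exact Or.inl h
      · right; left; exact ⟨h1, h2 ▸ SimpleGraph.Reachable.refl _⟩
      · right; right; exact ⟨h2, h1 ▸ SimpleGraph.Reachable.refl _⟩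
    · intro p q hpq
      rw [e1]
      exact (SimpleGraph.sup_adj _ _ _ _ |>.mpr (Or.inl hpq)).reachable
    · exact (adj1v u huv).mpr rfl
  refine ⟨H', ext_good v H H' a hH.cnt ?_ ?_ ?_ ?_ ?_ ?_ ?_⟩
  · -- acyclic
    intro c
    by_cases h0 : c = c₀
    · rw [h0, e0]
      have hac0 : ((H c₀).deleteEdges {s(x, y)}).IsAcyclic :=
        (hH.ac c₀).anti (SimpleGraph.deleteEdges_le _)
      have hiso' : ∀ w, ¬ ((H c₀).deleteEdges {s(x, y)}).Adj v w := by
        intro w hw
        exact hiso c₀ w (SimpleGraph.deleteEdges_le _ hw)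
      have hac1 : ((H c₀).deleteEdges {s(x, y)} ⊔ SimpleGraph.edge v x).IsAcyclic := by
        refine SimpleGraph.IsAcyclic.sup_edge_of_not_reachable ?_ hac0
        intro h
        exact hxv (eq_of_reachable_isolated hiso' h).symm
      refine SimpleGraph.IsAcyclic.sup_edge_of_not_reachable ?_ hac1
      intro h
      have hr := reach_attach ((H c₀).deleteEdges {s(x, y)}) ((H c₀).deleteEdges {s(x, y)})
        ((H c₀).deleteEdges {s(x, y)} ⊔ SimpleGraph.edge v x) v x le_rfl hiso'
        (by
          intro p q hpq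
          rw [SimpleGraph.sup_adj, SimpleGraph.edge_adj] at hpq
          rcases hpq with h | ⟨⟨h1, h2⟩ | ⟨h1, h2⟩, -⟩
          · exact Or.inl h
          · right; left; exact ⟨h1, h2 ▸ SimpleGraph.Reachable.refl _⟩
          · right; right; exact ⟨h2, h1 ▸ SimpleGraph.Reachable.refl _⟩)
        (by
          intro p q hpq
          exact (SimpleGraph.sup_adj _ _ _ _ |>.mpr (Or.inl hpq)).reachable)
        (by
          rw [SimpleGraph.sup_adj, SimpleGraph.edge_adj]
          right; exact ⟨Or.inl ⟨rfl, rfl⟩, hxv.symm⟩)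
      have h2 := (hr.2 y hyv).mp h
      have h5 := (SimpleGraph.isAcyclic_iff_forall_adj_isBridge.mp (hH.ac c₀)) hadj
      rw [SimpleGraph.isBridge_iff] at h5
      exact h5 h2
    · by_cases h1 : c = c₁
      · rw [h1, e1]
        refine SimpleGraph.IsAcyclic.sup_edge_of_not_reachable ?_ (hH.ac c₁)
        intro h
        exact huv (eq_of_reachable_isolated (hiso c₁) h).symm
      · rw [e2 c h0 h1]; exact hH.ac c
  · -- number of colours
    have hnumv : ∀ q, q ≠ v → (Finset.univ.filter (fun c => (H' c).Adj v q)).card = m v q := by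
      intro q hq
      rw [hmv q]
      have h1 : Finset.univ.filter (fun c => (H' c).Adj v q) =
          Finset.univ.filter (fun c => (c = c₀ ∧ (q = x ∨ q = y)) ∨ (c = c₁ ∧ q = u)) := by
        ext c
        simp only [Finset.mem_filter, Finset.mem_univ, true_and]
        by_cases h0 : c = c₀
        · rw [h0, adj0v q hq]
          simp [hc]
        · by_cases h1 : c = c₁
          · rw [h1, adj1v q hq]
            simp [hc.symm]
          · rw [e2 c h0 h1]
            simp [h0, h1, hiso c q]
      rw [h1]
      by_cases q1 : q = x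
      · have q2 : q ≠ y := fun h => hxy (q1.symm.trans h)
        by_cases q3 : q = u
        · have : Finset.univ.filter (fun c => (c = c₀ ∧ (q = x ∨ q = y)) ∨ (c = c₁ ∧ q = u)) =
            {c₀, c₁} := by
            ext c
            simp [q1, q1 ▸ q3]
          rw [this, Finset.card_pair hc, if_pos q1, if_neg q2, if_pos q3]
        · have : Finset.univ.filter (fun c => (c = c₀ ∧ (q = x ∨ q = y)) ∨ (c = c₁ ∧ q = u)) =
            {c₀} := by
            ext c
            simp [q1, q1 ▸ q3]
          rw [this, Finset.card_singleton, if_pos q1, if_neg q2, if_neg q3]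
      · by_cases q2 : q = y
        · by_cases q3 : q = u
          · have : Finset.univ.filter (fun c => (c = c₀ ∧ (q = x ∨ q = y)) ∨ (c = c₁ ∧ q = u)) =
              {c₀, c₁} := by
              ext c
              simp [q2, q2 ▸ q3]
            rw [this, Finset.card_pair hc, if_neg q1, if_pos q2, if_pos q3]
          · have : Finset.univ.filter (fun c => (c = c₀ ∧ (q = x ∨ q = y)) ∨ (c = c₁ ∧ q = u)) =
              {c₀} := by
              ext c
              simp [q2, q2 ▸ q3]
            rw [this, Finset.card_singleton, if_neg q1, if_pos q2, if_neg q3]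
        · by_cases q3 : q = u
          · have : Finset.univ.filter (fun c => (c = c₀ ∧ (q = x ∨ q = y)) ∨ (c = c₁ ∧ q = u)) =
              {c₁} := by
              ext c
              simp only [Finset.mem_filter, Finset.mem_univ, true_and, Finset.mem_singleton]
              constructor
              · rintro (⟨-, h | h⟩ | ⟨h, -⟩)
                · exact absurd h q1
                · exact absurd h q2
                · exact h
              · intro h
                exact Or.inr ⟨h, q3⟩
            rw [this, Finset.card_singleton, if_neg q1, if_neg q2, if_pos q3]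
          · have : Finset.univ.filter (fun c => (c = c₀ ∧ (q = x ∨ q = y)) ∨ (c = c₁ ∧ q = u)) =
              ∅ := by
              ext c
              simp [q1, q2, q3]
            rw [this, Finset.card_empty, if_neg q1, if_neg q2, if_neg q3]
    intro p q
    by_cases hp : p = v
    · by_cases hq : q = v
      · rw [hp, hq, hmv v, if_neg hxv.symm, if_neg hyv.symm, if_neg huv.symm]
        simp
      · rw [hp]; exact hnumv q hq
    · by_cases hq : q = v
      · rw [hq, hmv' p, ← hnumv p hp]
        congr 1
        ext c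
        simp only [Finset.mem_filter, Finset.mem_univ, true_and]
        rw [SimpleGraph.adj_comm]
      · rw [hm p q hp hq]
        by_cases hcase : (p = x ∧ q = y) ∨ (p = y ∧ q = x)
        · rw [if_pos hcase, Finset.card_eq_zero, Finset.filter_eq_empty_iff]
          intro c _ hcadj
          by_cases h0 : c = c₀
          · rw [h0, adj0 p q hp hq] at hcadj
            exact hcadj.2 hcase
          · have hHc : (H c).Adj p q := by
              by_cases h1 : c = c₁
              · rw [h1] at hcadj ⊢; exact (adj1 p q hp hq).mp hcadj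
              · rwa [e2 c h0 h1] at hcadj
            rcases hcase with ⟨h1, h2⟩ | ⟨h1, h2⟩
            · rw [h1, h2] at hHc; exact h0 (honly c hHc)
            · rw [h1, h2] at hHc; exact h0 (honly c hHc.symm)
        · rw [if_neg hcase, ← hH.num p q]
          congr 1
          ext c
          simp only [Finset.mem_filter, Finset.mem_univ, true_and]
          by_cases h0 : c = c₀
          · rw [h0, adj0 p q hp hq]
            exact ⟨fun h => h.1, fun h => ⟨h, hcase⟩⟩
          · by_cases h1 : c = c₁
            · rw [h1]; exact adj1 p q hp hq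
            · rw [e2 c h0 h1]
  · intro c p q hp hq
    by_cases h0 : c = c₀
    · rw [h0]; exact hreach0.1 p q hp hq
    · by_cases h1 : c = c₁
      · rw [h1]; exact hreach1.1 p q hp hq
      · rw [e2 c h0 h1]
  · intro c q hq
    by_cases h0 : c = c₀
    · rw [h0, a0, hreach0.2 q hq]
      constructor
      · intro h; exact ⟨x, rfl, h⟩
      · rintro ⟨x', hx', h⟩
        have : x = x' := by simpa using hx'
        rw [this]; exact h
    · by_cases h1 : c = c₁
      · rw [h1, a1, hreach1.2 q hq]
        constructor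
        · intro h; exact ⟨u, rfl, h⟩
        · rintro ⟨x', hx', h⟩
          have : u = x' := by simpa using hx'
          rw [this]; exact h
      · rw [e2 c h0 h1, a2 c h0 h1]
        constructor
        · intro h
          exact absurd (eq_of_reachable_isolated (hiso c) h).symm hq
        · rintro ⟨x', hx', -⟩
          exact absurd hx' (by simp)
  · intro c p q hp hq hpos hr
    rw [hm p q hp hq] at hpos
    have hcase : ¬ ((p = x ∧ q = y) ∨ (p = y ∧ q = x)) := by
      intro h
      rw [if_pos h] at hpos
      exact lt_irrefl 0 hpos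
    rw [if_neg hcase] at hpos
    have h3 := hH.flat c p q hpos hr
    by_cases h0 : c = c₀
    · rw [h0] at h3 ⊢
      exact (adj0 p q hp hq).mpr ⟨h3, hcase⟩
    · by_cases h1 : c = c₁
      · rw [h1] at h3 ⊢; exact (adj1 p q hp hq).mpr h3
      · rwa [e2 c h0 h1]
  · intro c w q hpos hw hr
    have hqv : q ≠ v := by
      intro h
      rw [h, hmv v, if_neg hxv.symm, if_neg hyv.symm, if_neg huv.symm] at hpos
      exact absurd hpos (by norm_num)
    by_cases h0 : c = c₀
    · rw [h0, a0] at hw
      have hw' : x = w := by simpa using hw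
      rw [← hw', h0] at hr
      rw [h0]
      exact (adj0v q hqv).mpr (hsep0 q hpos hr)
    · by_cases h1 : c = c₁
      · rw [h1, a1] at hw
        have hw' : u = w := by simpa using hw
        rw [← hw', h1] at hr
        rw [h1]
        exact (adj1v q hqv).mpr (hsep1 q hpos hr)
      · rw [a2 c h0 h1] at hw
        exact absurd hw (by simp)
  · intro T hT _
    have h1 : (Finset.univ.filter (fun c => ∃ x, a c = some x ∧ Meets H c x T)).card ≤ 2 := by
      have h2 : Finset.univ.filter (fun c => ∃ x, a c = some x ∧ Meets H c x T) ⊆ {c₀, c₁} := by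
        intro c hcm
        rw [Finset.mem_filter] at hcm
        obtain ⟨-, w, hw, -⟩ := hcm
        rw [Finset.mem_insert, Finset.mem_singleton]
        by_contra hcon
        push Not at hcon
        rw [a2 c hcon.1 hcon.2] at hw
        exact absurd hw (by simp)
      exact (Finset.card_le_card h2).trans Finset.card_le_two
    have h3 := hH.cnt T hT
    omega

end Pool.Agent.Helper83.SA
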