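import Pool.Agent.Helper83.SA.Defs

/-!
# Strong arboricity (MP_96bd24_co): `zeta G ≤ 2 * degeneracy` and `zeta G ≤ 4 * arb G - 2`
-/

namespace Pool.Agent.Helper83.SA

open Finset
open scoped Classical

variable {V : Type*}

/-- `G` is `d`-degenerate: every nonempty finite vertex set contains a vertex with at most `d`
neighbours in the set. -/
def Degenerate (G : SimpleGraph V) (d : ℕ) : Prop :=
  ∀ S : Finset V, S.Nonempty → ∃ v ∈ S, (S.filter (fun y => G.Adj v y)).card ≤ d

/-- The state of the greedy construction: positions `p` and arc colours `k` on the set `S`. -/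
structure State (G : SimpleGraph V) (d : ℕ) (S : Finset V) (p : V → ℕ) (k : V → V → ℕ) : Prop where
  inj : ∀ x ∈ S, ∀ y ∈ S, p x = p y → x = y
  out : ∀ x ∈ S, (S.filter (fun y => G.Adj x y ∧ p x < p y)).card ≤ d
  lt : ∀ x ∈ S, ∀ y ∈ S, G.Adj x y → p x < p y → k x y < 2 * d
  r1 : ∀ x ∈ S, ∀ y ∈ S, ∀ z ∈ S, G.Adj x y → G.Adj x z → p x < p y → p x < p z →
    k x y = k x z → y = z
  r2 : ∀ x ∈ S, ∀ y ∈ S, ∀ z ∈ S, G.Adj x y → G.Adj y z → p x < p y → p y < p z →
    k x y ≠ k y z
  r3 : ∀ x ∈ S, ∀ y ∈ S, ∀ w ∈ S, G.Adj x w → G.Adj y w → p x < p w → p y < p w →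
    G.Adj x y → k x w ≠ k y w

theorem exists_state (G : SimpleGraph V) (d : ℕ) (hd : Degenerate G d) (S : Finset V) :
    ∃ p k, State G d S p k := by
  induction hn : S.card generalizing S with
  | zero =>
    have hS : S = ∅ := Finset.card_eq_zero.mp hn
    subst hS
    exact ⟨fun _ => 0, fun _ _ => 0, ⟨by simp, by simp, by simp, by simp, by simp, by simp⟩⟩
  | succ n ih =>
    have hS : S.Nonempty := Finset.card_pos.mp (by omega)
    obtain ⟨v, hv, hdeg⟩ := hd S hS
    obtain ⟨p, k, hst⟩ := ih (S.erase v) (by rw [Finset.card_erase_of_mem hv, hn]; rfl)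
    set S' := S.erase v with hS'
    set N : Finset V := S'.filter (fun y => G.Adj v y) with hN
    have hNcard : N.card ≤ d := by
      refine le_trans (Finset.card_le_card ?_) hdeg
      exact Finset.filter_subset_filter _ (Finset.erase_subset _ _)
    -- choice of the colours of the new arcs
    have hsdr : ∀ T : Finset V, T ⊆ N → ∃ g : V → ℕ, (∀ u ∈ T, g u < 2 * d) ∧
        (∀ u ∈ T, ∀ u' ∈ T, g u = g u' → u = u') ∧
        (∀ u ∈ T, ∀ z ∈ S', G.Adj u z → p u < p z → g u ≠ k u z) ∧
        (∀ u ∈ T, ∀ x ∈ N, G.Adj x u → p x < p u → g u ≠ k x u) := by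
      intro T
      induction T using Finset.induction_on_min_value p with
      | empty => intro _; exact ⟨fun _ => 0, by simp, by simp, by simp, by simp⟩
      | insert u T huT hmin ihT =>
        intro hsub
        obtain ⟨g, hg1, hg2, hg3, hg4⟩ := ihT (fun x hx => hsub (Finset.mem_insert_of_mem hx))
        have huN : u ∈ N := hsub (Finset.mem_insert_self _ _)
        have huS : u ∈ S' := (Finset.mem_filter.mp huN).1
        -- forbidden colours
        set F : Finset ℕ := (S'.filter (fun z => G.Adj u z ∧ p u < p z)).image (fun z => k u z) ∪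
          ((N.filter (fun x => p x < p u)).image (fun x => k x u) ∪ T.image g) with hF
        have hF1 : F.card < 2 * d := by
          have c1 : ((S'.filter (fun z => G.Adj u z ∧ p u < p z)).image (fun z => k u z)).card ≤ d :=
            Finset.card_image_le.trans (hst.out u huS)
          have c2 : ((N.filter (fun x => p x < p u)).image (fun x => k x u)).card ≤
              (N.filter (fun x => p x < p u)).card := Finset.card_image_le
          have c3 : (T.image g).card ≤ T.card := Finset.card_image_le
          have c4 : (N.filter (fun x => p x < p u)).card + T.card + 1 ≤ N.card := by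
            have hdis : Disjoint (N.filter (fun x => p x < p u)) (insert u T) := by
              rw [Finset.disjoint_left]
              intro x hx hx2
              have h1 := (Finset.mem_filter.mp hx).2
              rcases Finset.mem_insert.mp hx2 with h | h
              · subst h; exact lt_irrefl _ h1
              · exact absurd h1 (not_lt.mpr (hmin x h))
            have h2 : (N.filter (fun x => p x < p u) ∪ insert u T).card ≤ N.card := by
              refine Finset.card_le_card (Finset.union_subset (Finset.filter_subset _ _) hsub)
            rw [Finset.card_union_of_disjoint hdis, Finset.card_insert_of_notMem huT] at h2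
            omega
          have c5 := Finset.card_union_le
            ((S'.filter (fun z => G.Adj u z ∧ p u < p z)).image (fun z => k u z))
            ((N.filter (fun x => p x < p u)).image (fun x => k x u) ∪ T.image g)
          have c6 := Finset.card_union_le
            ((N.filter (fun x => p x < p u)).image (fun x => k x u)) (T.image g)
          rw [← hF] at c5
          omega
        obtain ⟨a, ha1, ha2⟩ : ∃ a ∈ Finset.range (2 * d), a ∉ F := by
          by_contra hcon
          push Not at hcon
          have := Finset.card_le_card (show Finset.range (2 * d) ⊆ F from hcon)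
          rw [Finset.card_range] at this
          omega
        rw [Finset.mem_range] at ha1
        have haF1 : ∀ z ∈ S', G.Adj u z → p u < p z → a ≠ k u z := by
          intro z hz h1 h2 h3
          apply ha2
          rw [hF, Finset.mem_union]
          left
          exact Finset.mem_image.mpr ⟨z, Finset.mem_filter.mpr ⟨hz, h1, h2⟩, h3.symm⟩
        have haF2 : ∀ x ∈ N, p x < p u → a ≠ k x u := by
          intro x hx h1 h3
          apply ha2
          rw [hF, Finset.mem_union, Finset.mem_union]
          right; left
          exact Finset.mem_image.mpr ⟨x, Finset.mem_filter.mpr ⟨hx, h1⟩, h3.symm⟩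
        have haF3 : ∀ x ∈ T, g x ≠ a := by
          intro x hx h3
          apply ha2
          rw [hF, Finset.mem_union, Finset.mem_union]
          right; right
          exact Finset.mem_image.mpr ⟨x, hx, h3⟩
        have hne : ∀ x ∈ T, x ≠ u := fun x hx h => huT (h ▸ hx)
        refine ⟨fun x => if x = u then a else g x, ?_, ?_, ?_, ?_⟩
        · intro x hx
          by_cases hxu : x = u
          · simp only [hxu, if_true]; exact ha1
          · simp only [hxu, if_false]
            exact hg1 x (Finset.mem_of_mem_insert_of_ne hx hxu)
        · intro x hx y hy hxy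
          by_cases hxu : x = u
          · by_cases hyu : y = u
            · rw [hxu, hyu]
            · simp only [hxu, hyu, if_true, if_false] at hxy
              exact absurd hxy.symm (haF3 y (Finset.mem_of_mem_insert_of_ne hy hyu))
          · by_cases hyu : y = u
            · simp only [hxu, hyu, if_true, if_false] at hxy
              exact absurd hxy (haF3 x (Finset.mem_of_mem_insert_of_ne hx hxu))
            · simp only [hxu, hyu, if_false] at hxy
              exact hg2 x (Finset.mem_of_mem_insert_of_ne hx hxu) y
                (Finset.mem_of_mem_insert_of_ne hy hyu) hxy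
        · intro x hx z hz h1 h2
          by_cases hxu : x = u
          · simp only [hxu, if_true]
            rw [hxu] at h1 h2
            exact haF1 z hz h1 h2
          · simp only [hxu, if_false]
            exact hg3 x (Finset.mem_of_mem_insert_of_ne hx hxu) z hz h1 h2
        · intro x hx z hz h1 h2
          by_cases hxu : x = u
          · simp only [hxu, if_true]
            rw [hxu] at h2
            exact haF2 z hz h2
          · simp only [hxu, if_false]
            exact hg4 x (Finset.mem_of_mem_insert_of_ne hx hxu) z hz h1 h2
    obtain ⟨g, hg1, hg2, hg3, hg4⟩ := hsdr N (Finset.Subset.refl _)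
    -- the new state
    have hmemN : ∀ y ∈ S, y ≠ v → G.Adj v y → y ∈ N := fun y hy h1 h2 =>
      Finset.mem_filter.mpr ⟨Finset.mem_erase.mpr ⟨h1, hy⟩, h2⟩
    refine ⟨fun x => if x = v then 0 else p x + 1, fun x y => if x = v then g y else k x y, ?_⟩
    have hS'mem : ∀ x ∈ S, x ≠ v → x ∈ S' := fun x hx h => Finset.mem_erase.mpr ⟨h, hx⟩
    refine ⟨?_, ?_, ?_, ?_, ?_, ?_⟩
    · intro x hx y hy hxy
      by_cases hxv : x = v
      · by_cases hyv : y = v
        · rw [hxv, hyv]
        · simp [hxv, hyv] at hxy
      · by_cases hyv : y = v
        · simp [hxv, hyv] at hxy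
        · simp only [hxv, hyv, if_false] at hxy
          exact hst.inj x (hS'mem x hx hxv) y (hS'mem y hy hyv) (by omega)
    · intro x hx
      by_cases hxv : x = v
      · subst hxv
        refine le_trans (Finset.card_le_card ?_) hdeg
        intro y hy
        rw [Finset.mem_filter] at hy ⊢
        exact ⟨hy.1, hy.2.1⟩
      · refine le_trans (Finset.card_le_card ?_) (hst.out x (hS'mem x hx hxv))
        intro y hy
        rw [Finset.mem_filter] at hy ⊢
        obtain ⟨hy1, hy2, hy3⟩ := hy
        by_cases hyv : y = v
        · simp [hyv] at hy3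
        · simp only [hxv, hyv, if_false] at hy3
          exact ⟨hS'mem y hy1 hyv, hy2, by omega⟩
    · intro x hx y hy h1 h2
      by_cases hyv : y = v
      · simp [hyv] at h2
      by_cases hxv : x = v
      · subst hxv
        simp only [if_true]
        exact hg1 y (hmemN y hy hyv h1)
      · simp only [hxv, hyv, if_false] at h2 ⊢
        exact hst.lt x (hS'mem x hx hxv) y (hS'mem y hy hyv) h1 (by omega)
    · intro x hx y hy z hz h1 h2 h3 h4 h5
      by_cases hyv : y = v
      · simp [hyv] at h3
      by_cases hzv : z = v
      · simp [hzv] at h4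
      by_cases hxv : x = v
      · subst hxv
        simp only [if_true] at h5
        exact hg2 y (hmemN y hy hyv h1) z (hmemN z hz hzv h2) h5
      · simp only [hxv, hyv, hzv, if_false] at h3 h4 h5
        exact hst.r1 x (hS'mem x hx hxv) y (hS'mem y hy hyv) z (hS'mem z hz hzv) h1 h2
          (by omega) (by omega) h5
    · intro x hx y hy z hz h1 h2 h3 h4
      by_cases hyv : y = v
      · simp [hyv] at h3
      by_cases hzv : z = v
      · simp [hzv] at h4
      by_cases hxv : x = v
      · subst hxv
        simp only [hyv, hzv, if_true, if_false] at h4 ⊢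
        exact hg3 y (hmemN y hy hyv h1) z (hS'mem z hz hzv) h2 (by omega)
      · simp only [hxv, hyv, hzv, if_false] at h3 h4 ⊢
        exact hst.r2 x (hS'mem x hx hxv) y (hS'mem y hy hyv) z (hS'mem z hz hzv) h1 h2
          (by omega) (by omega)
    · intro x hx y hy w hw h1 h2 h3 h4 h5
      by_cases hwv : w = v
      · simp [hwv] at h3
      by_cases hxv : x = v
      · subst hxv
        have hyv : y ≠ x := h5.ne'
        simp only [hyv, hwv, if_true, if_false] at h4 ⊢
        exact hg4 w (hmemN w hw hwv h1) y (hmemN y hy hyv h5) h2 (by omega)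
      · by_cases hyv : y = v
        · subst hyv
          simp only [hxv, hwv, if_true, if_false] at h3 ⊢
          exact (hg4 w (hmemN w hw hwv h2) x (hmemN x hx hxv h5.symm) h1 (by omega)).symm
        · simp only [hxv, hyv, hwv, if_false] at h3 h4 ⊢
          exact hst.r3 x (hS'mem x hx hxv) y (hS'mem y hy hyv) w (hS'mem w hw hwv) h1 h2
            (by omega) (by omega) h5

/-- A finite `d`-degenerate graph has a strongly woody colouring with `2 d` colours. -/
theorem exists_stronglyWoody_of_degenerate [Fintype V] (G : SimpleGraph V) (d : ℕ)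
    (hd : Degenerate G d) :
    ∃ c : Sym2 V → ℕ, (∀ e ∈ G.edgeSet, c e < 2 * d) ∧ StronglyWoody G c := by
  obtain ⟨p, k, hst⟩ := exists_state G d hd Finset.univ
  have inj : ∀ x y, p x = p y → x = y := fun x y =>
    hst.inj x (Finset.mem_univ _) y (Finset.mem_univ _)
  have hlt : ∀ x y, G.Adj x y → p x < p y → k x y < 2 * d := fun x y =>
    hst.lt x (Finset.mem_univ _) y (Finset.mem_univ _)
  have r1 : ∀ x y z, G.Adj x y → G.Adj x z → p x < p y → p x < p z → k x y = k x z → y = z :=
    fun x y z => hst.r1 x (Finset.mem_univ _) y (Finset.mem_univ _) z (Finset.mem_univ _)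
  have r2 : ∀ x y z, G.Adj x y → G.Adj y z → p x < p y → p y < p z → k x y ≠ k y z :=
    fun x y z => hst.r2 x (Finset.mem_univ _) y (Finset.mem_univ _) z (Finset.mem_univ _)
  have r3 : ∀ x y w, G.Adj x w → G.Adj y w → p x < p w → p y < p w → G.Adj x y → k x w ≠ k y w :=
    fun x y w => hst.r3 x (Finset.mem_univ _) y (Finset.mem_univ _) w (Finset.mem_univ _)
  have hpne : ∀ x y, G.Adj x y → p x < p y ∨ p y < p x := by
    intro x y h
    rcases lt_trichotomy (p x) (p y) with h1 | h1 | h1
    · exact Or.inl h1
    · exact absurd (inj x y h1) h.ne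
    · exact Or.inr h1
  let c : Sym2 V → ℕ := Sym2.lift ⟨fun x y => if p x < p y then k x y else if p y < p x then k y x
    else 0, by
      intro x y
      beta_reduce
      rcases lt_trichotomy (p x) (p y) with h1 | h1 | h1
      · rw [if_pos h1, if_neg (not_lt.mpr h1.le), if_pos h1]
      · rw [if_neg (by omega), if_neg (by omega), if_neg (by omega), if_neg (by omega)]
      · rw [if_neg (by omega), if_pos h1, if_pos h1]⟩
  have hc1 : ∀ x y, p x < p y → c s(x, y) = k x y := by
    intro x y h
    simp only [c, Sym2.lift_mk]
    rw [if_pos h]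
  have hc2 : ∀ x y, p y < p x → c s(x, y) = k y x := by
    intro x y h
    rw [Sym2.eq_swap]; exact hc1 y x h
  refine ⟨c, ?_, ?_⟩
  · intro e he
    induction e using Sym2.ind with
    | h x y =>
      have hadj : G.Adj x y := he
      rcases hpne x y hadj with h | h
      · rw [hc1 x y h]; exact hlt x y hadj h
      · rw [hc2 x y h]; exact hlt y x hadj.symm h
  · -- in each colour class the components are stars
    have key : ∀ i x y, (cls G c i).Reachable x y → x = y ∨ (cls G c i).Adj x y ∨
        ∃ m, (cls G c i).Adj x m ∧ (cls G c i).Adj y m ∧ p x < p m ∧ p y < p m := by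
      intro i x y hxy
      obtain ⟨w⟩ := hxy
      induction w with
      | nil => exact Or.inl rfl
      | @cons a b e hab w ih =>
        have hab' := hab
        rw [cls_adj] at hab'
        rcases ih with h | h | ⟨m, hm1, hm2, hm3, hm4⟩
        · subst h; exact Or.inr (Or.inl hab)
        · by_cases hae : a = e
          · exact Or.inl hae
          rw [cls_adj] at h
          right; right
          refine ⟨b, hab, ?_, ?_, ?_⟩
          · exact ⟨h.1.symm, by rw [Sym2.eq_swap]; exact h.2⟩
          · rcases hpne a b hab'.1 with h1 | h1
            · exact h1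
            · exfalso
              rcases hpne b e h.1 with h2 | h2
              · have e1 := hab'.2
                have e2 := h.2
                rw [hc2 a b h1] at e1
                rw [hc1 b e h2] at e2
                exact hae (r1 b a e hab'.1.symm h.1 h1 h2 (e1.trans e2.symm))
              · have e1 := hab'.2
                have e2 := h.2
                rw [hc2 a b h1] at e1
                rw [hc2 b e h2] at e2
                exact r2 e b a h.1.symm hab'.1.symm h2 h1 (e2.trans e1.symm)
          · rcases hpne b e h.1 with h2 | h2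
            · exfalso
              rcases hpne a b hab'.1 with h1 | h1
              · have e1 := hab'.2
                have e2 := h.2
                rw [hc1 a b h1] at e1
                rw [hc1 b e h2] at e2
                exact r2 a b e hab'.1 h.1 h1 h2 (e1.trans e2.symm)
              · have e1 := hab'.2
                have e2 := h.2
                rw [hc2 a b h1] at e1
                rw [hc1 b e h2] at e2
                exact hae (r1 b a e hab'.1.symm h.1 h1 h2 (e1.trans e2.symm))
            · exact h2
        · -- b → m ← e
          rw [cls_adj] at hm1 hm2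
          have e1 := hab'.2
          have e2 := hm1.2
          rw [hc1 b m hm3] at e2
          rcases hpne a b hab'.1 with h1 | h1
          · exfalso
            rw [hc1 a b h1] at e1
            exact r2 a b m hab'.1 hm1.1 h1 hm3 (e1.trans e2.symm)
          · rw [hc2 a b h1] at e1
            have ham : a = m := r1 b a m hab'.1.symm hm1.1 h1 hm3 (e1.trans e2.symm)
            subst ham
            right; left
            exact ⟨hm2.1.symm, by rw [Sym2.eq_swap]; exact hm2.2⟩
    refine stronglyWoody_of_flat G c ?_ ?_
    · intro i
      rw [SimpleGraph.isAcyclic_iff_forall_adj_isBridge]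
      -- the lower end of an edge has degree one in its colour class
      have leaf : ∀ x y, (cls G c i).Adj x y → p x < p y →
          ¬ ((cls G c i).deleteEdges {s(x, y)}).Reachable x y := by
        intro x y hxy hp hr
        obtain ⟨w⟩ := hr
        cases w with
        | nil => exact lt_irrefl _ hp
        | @cons _ b _ hxb w =>
          rw [SimpleGraph.deleteEdges_adj] at hxb
          obtain ⟨h1, h2⟩ := hxb
          rw [cls_adj] at h1 hxy
          have e0 := hxy.2
          rw [hc1 x y hp] at e0
          have e1 := h1.2
          rcases hpne x b h1.1 with h3 | h3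
          · rw [hc1 x b h3] at e1
            have : b = y := r1 x b y h1.1 hxy.1 h3 hp (e1.trans e0.symm)
            subst this
            exact h2 rfl
          · rw [hc2 x b h3] at e1
            exact r2 b x y h1.1.symm hxy.1 h3 hp (e1.trans e0.symm)
      intro x y hxy
      rw [SimpleGraph.isBridge_iff]
      rcases hpne x y hxy.1 with h | h
      · exact leaf x y hxy h
      · intro hr
        have h5 := leaf y x hxy.symm h
        rw [Sym2.eq_swap] at h5
        exact h5 hr.symm
    · intro i x y hxy hr
      rcases key i x y hr with h | h | ⟨m, hm1, hm2, hm3, hm4⟩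
      · exact absurd h hxy.ne
      · exact h
      · exfalso
        rw [cls_adj] at hm1 hm2
        have e1 := hm1.2
        have e2 := hm2.2
        rw [hc1 x m hm3] at e1
        rw [hc1 y m hm4] at e2
        exact r3 x y m hm1.1 hm2.1 hm3 hm4 hxy (e1.trans e2.symm)

/-- A finite graph with a woody colouring in `a ≥ 1` colours is `(2 a - 1)`-degenerate. -/
theorem degenerate_of_woody [Fintype V] (G : SimpleGraph V) (a : ℕ) (ha : 1 ≤ a) (c : Sym2 V → ℕ)
    (hc : ∀ e ∈ G.edgeSet, c e < a) (hw : Woody G c) : Degenerate G (2 * a - 1) := by
  intro S hS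
  by_contra hcon
  push Not at hcon
  have h1 : ∀ v ∈ S, 2 * a ≤ (S.filter (fun y => G.Adj v y)).card := by
    intro v hv
    have := hcon v hv
    omega
  have h2 : ∀ v ∈ S, (S.filter (fun y => G.Adj v y)).card =
      ∑ i ∈ Finset.range a, (S.filter (fun y => (cls G c i).Adj v y)).card := by
    intro v _
    rw [← Finset.card_biUnion]
    · congr 1
      ext y
      simp only [Finset.mem_filter, Finset.mem_biUnion, Finset.mem_range, cls_adj]
      constructor
      · rintro ⟨hy, hadj⟩
        exact ⟨c s(v, y), hc _ hadj, hy, hadj, rfl⟩
      · rintro ⟨i, _, hy, hadj, _⟩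
        exact ⟨hy, hadj⟩
    · intro i _ j _ hij
      rw [Function.onFun, Finset.disjoint_left]
      intro y hy1 hy2
      rw [Finset.mem_filter, cls_adj] at hy1 hy2
      exact hij (hy1.2.2.symm.trans hy2.2.2)
  have h3 : ∑ v ∈ S, (S.filter (fun y => G.Adj v y)).card ≤ a * (2 * (S.card - 1)) := by
    rw [Finset.sum_congr rfl h2, Finset.sum_comm]
    calc ∑ i ∈ Finset.range a, ∑ v ∈ S, (S.filter (fun y => (cls G c i).Adj v y)).card
        ≤ ∑ _i ∈ Finset.range a, 2 * (S.card - 1) :=
          Finset.sum_le_sum (fun i _ => sum_degree_le_of_isAcyclic _ (hw.isAcyclic_cls i) S hS)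
      _ = a * (2 * (S.card - 1)) := by rw [Finset.sum_const, Finset.card_range, smul_eq_mul]
  have h4 : S.card * (2 * a) ≤ ∑ v ∈ S, (S.filter (fun y => G.Adj v y)).card := by
    have := Finset.card_nsmul_le_sum S (fun v => (S.filter (fun y => G.Adj v y)).card) (2 * a) h1
    rwa [smul_eq_mul] at this
  have h5 : 1 ≤ S.card := Finset.card_pos.mpr hS
  have h6 : S.card * (2 * a) ≤ a * (2 * (S.card - 1)) := h4.trans h3
  obtain ⟨s, hs⟩ : ∃ s, S.card = s + 1 := ⟨S.card - 1, by omega⟩
  rw [hs] at h6
  have h7 : s + 1 - 1 = s := by omega
  rw [h7] at h6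
  nlinarith

/-- `zeta G ≤ 2 d` for `d`-degenerate graphs. -/
theorem zeta_le_of_degenerate [Fintype V] (G : SimpleGraph V) (d : ℕ) (hd : Degenerate G d) :
    zeta G ≤ 2 * d := by
  obtain ⟨c, hc, hs⟩ := exists_stronglyWoody_of_degenerate G d hd
  exact zeta_le hc hs

/-- `zeta G ≤ 4 arb G - 2`. -/
theorem zeta_le_linear [Fintype V] (G : SimpleGraph V) : zeta G ≤ 4 * arb G - 2 := by
  obtain ⟨c, hc, hw⟩ := exists_woody_arb G
  rcases Nat.eq_zero_or_pos (arb G) with h0 | h0
  · -- no edges
    have hs : StronglyWoody G c := by
      intro v w hwc e he i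
      have := hc e (w.edges_subset_edgeSet he)
      omega
    have := zeta_le (k := 0) (fun e he => by have := hc e he; omega) hs
    omega
  · have h1 := zeta_le_of_degenerate G _ (degenerate_of_woody G (arb G) h0 c hc hw)
    omega

/-- The degeneracy of `G`: the least `d` such that every nonempty finite vertex set contains a
vertex with at most `d` neighbours in the set. -/
noncomputable def degen (G : SimpleGraph V) : ℕ := sInf {d : ℕ | Degenerate G d}

theorem zeta_le_two_degen [Fintype V] (G : SimpleGraph V) : zeta G ≤ 2 * degen G := by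
  have hne : {d : ℕ | Degenerate G d}.Nonempty := by
    refine ⟨Fintype.card V, fun S hS => ?_⟩
    obtain ⟨v, hv⟩ := hS
    exact ⟨v, hv, Finset.card_le_univ _⟩
  exact zeta_le_of_degenerate G _ (Nat.sInf_mem hne)

theorem two_degen_le [Fintype V] (G : SimpleGraph V) : 2 * degen G ≤ 4 * arb G - 2 := by
  obtain ⟨c, hc, hw⟩ := exists_woody_arb G
  rcases Nat.eq_zero_or_pos (arb G) with h0 | h0
  · have h1 : Degenerate G 0 := by
      intro S hS
      obtain ⟨v, hv⟩ := hS
      refine ⟨v, hv, ?_⟩
      rw [Nat.le_zero, Finset.card_eq_zero, Finset.filter_eq_empty_iff]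
      intro y _ hadj
      have h2 := hc s(v, y) hadj
      rw [h0] at h2
      exact Nat.not_lt_zero _ h2
    have h2 : degen G ≤ 0 := Nat.sInf_le h1
    omega
  · have h1 : degen G ≤ 2 * arb G - 1 := Nat.sInf_le (degenerate_of_woody G (arb G) h0 c hc hw)
    omega

end Pool.Agent.Helper83.SA
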