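import Pool.Agent.Helper83.SA.Cases

/-!
# Strong arboricity (MP_96bd24_co): a new vertex with three distinct neighbours
-/

namespace Pool.Agent.Helper83.SA

open Finset
open scoped Classical

variable {V : Type*}

/-- The situation after removing the edge `x y` of colour `c₀`, where `x` and `y` are not joined
in `m₀`. -/
structure Sit (m m₀ : V → V → ℕ) (v x y z : V) (H : Fin 4 → SimpleGraph V)
    (c₀ : Fin 4) : Prop where
  hxy : x ≠ y
  hxz : x ≠ z
  hyz : y ≠ z
  st : Step m m₀ v x y z
  good : Good m₀ H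
  /-- no colour connects `x` and `y` -/
  nxy : ∀ c, ¬ (H c).Reachable x y
  bad : ∀ T : Finset V, Tight H T → Meets H c₀ x T → Meets H c₀ y T → False

theorem Sit.swap {m m₀ : V → V → ℕ} {v x y z : V} {H : Fin 4 → SimpleGraph V} {c₀ : Fin 4}
    (h : Sit m m₀ v x y z H c₀) : Sit m m₀ v y x z H c₀ :=
  ⟨h.hxy.symm, h.hyz, h.hxz, h.st.swap, h.good, fun c hr => h.nxy c hr.symm,
    fun T hT h1 h2 => h.bad T hT h2 h1⟩

theorem Sit.disj {m m₀ : V → V → ℕ} {v x y z : V} {H : Fin 4 → SimpleGraph V} {c₀ : Fin 4}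
    (h : Sit m m₀ v x y z H c₀) {c : Fin 4} (h1 : (H c).Reachable x z)
    (h2 : (H c).Reachable y z) : False := h.nxy c (h1.trans h2.symm)

/-- attaching `v` with colours `a, b, d` to `x, y, z` in the situation `Sit` -/
theorem Sit.attach {m m₀ : V → V → ℕ} {v x y z : V} {H : Fin 4 → SimpleGraph V} {c₀ : Fin 4}
    (h : Sit m m₀ v x y z H c₀) (a b d : Fin 4) (hab : a ≠ b) (had : a ≠ d) (hbd : b ≠ d)
    (h1 : ¬ (H a).Reachable x z) (h2 : ¬ (H b).Reachable y z) (h3 : ¬ (H d).Reachable x z)
    (h4 : ¬ (H d).Reachable y z)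
    (hT : ∀ T : Finset V, Tight H T → Meets H a x T → Meets H b y T → Meets H d z T → False) :
    ∃ H', Good m H' :=
  attach_three v H h.good h.st.hv h.st.hm x y z h.st.hmv h.st.hmv' h.st.hvv a b d hab had hbd
    (fun hr => absurd hr (h.nxy a)) (fun hr => absurd hr h1)
    (fun hr => absurd hr.symm (h.nxy b)) (fun hr => absurd hr h2)
    (fun hr => absurd hr.symm h3) (fun hr => absurd hr.symm h4) hT

/-- `x` and `z` are connected by two colours different from `c₀`, `y` and `z` by another one -/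
theorem Sit.case1 {m m₀ : V → V → ℕ} {v x y z : V} {H : Fin 4 → SimpleGraph V} {c₀ : Fin 4}
    (h : Sit m m₀ v x y z H c₀) (h0x : ¬ (H c₀).Reachable x z) (h0y : ¬ (H c₀).Reachable y z)
    (hP : (Kc H x z).card = 2) {r : Fin 4} (hr : (H r).Reachable y z) : ∃ H', Good m H' := by
  have htxz : Tight H {x, z} := tight_pair h.hxz hP
  obtain ⟨p, hp⟩ : (Kc H x z).Nonempty := Finset.card_pos.mp (by omega)
  rw [mem_Kc] at hp
  have hrx : ¬ (H r).Reachable x z := fun h1 => h.disj h1 hr
  have hpy : ¬ (H p).Reachable y z := fun h1 => h.disj hp h1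
  have hrp : r ≠ p := fun h1 => hrx (h1 ▸ hp)
  have hr0 : r ≠ c₀ := fun h1 => h0y (h1 ▸ hr)
  have hp0 : p ≠ c₀ := fun h1 => h0x (h1 ▸ hp)
  refine h.attach r p c₀ hrp hr0 hp0 hrx hpy h0x h0y ?_
  intro T hT m1 m2 m3
  have hM := hT.union h.good.cnt htxz hr0 m1 (meets_of_mem (by simp)) m3 (meets_of_mem (by simp))
  have m4 : Meets H r y (T ∪ {x, z}) := ⟨z, by simp, hr⟩
  have hM2 := hM.union h.good.cnt (tight_singleton H y) hrp m4
    (meets_of_mem (Finset.mem_singleton_self y)) (m2.mono Finset.subset_union_left)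
    (meets_of_mem (Finset.mem_singleton_self y))
  refine h.bad _ hM2 (meets_of_mem ?_) (meets_of_mem ?_)
  · simp
  · simp

/-- `x` and `z` are connected in colour `c₀` -/
theorem Sit.case2 {m m₀ : V → V → ℕ} {v x y z : V} {H : Fin 4 → SimpleGraph V} {c₀ : Fin 4}
    (h : Sit m m₀ v x y z H c₀) (h0x : (H c₀).Reachable x z) : ∃ H', Good m H' := by
  have h0y : ¬ (H c₀).Reachable y z := fun h1 => h.disj h0x h1
  have hcP := card_Kc_le h.good.cnt h.hxz
  have hcR := card_Kc_le h.good.cnt h.hyz
  have hdis : Disjoint (Kc H x z) (Kc H y z) := by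
    rw [Finset.disjoint_left]
    intro c h1 h2
    rw [mem_Kc] at h1 h2
    exact h.disj h1 h2
  have hcU : (Kc H x z ∪ Kc H y z).card = (Kc H x z).card + (Kc H y z).card :=
    Finset.card_union_of_disjoint hdis
  have h0P : c₀ ∈ Kc H x z := mem_Kc.mpr h0x
  by_cases hP : (Kc H x z).card = 2
  · -- case 2a
    have htxz : Tight H {x, z} := tight_pair h.hxz hP
    by_cases hR : (Kc H y z).card = 2
    · exfalso
      have htyz : Tight H {y, z} := tight_pair h.hyz hR
      have hU := htxz.union h.good.cnt htyz (show (0 : Fin 4) ≠ 1 by decide) (x := z) (x' := z)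
        (meets_of_mem (by simp)) (meets_of_mem (by simp)) (meets_of_mem (by simp))
        (meets_of_mem (by simp))
      exact h.bad _ hU (meets_of_mem (by simp)) (meets_of_mem (by simp))
    · have hlt : (Kc H x z ∪ Kc H y z).card < 4 := by omega
      obtain ⟨s, -, hs⟩ : ∃ s ∈ (Finset.univ : Finset (Fin 4)), s ∉ Kc H x z ∪ Kc H y z := by
        by_contra hcon
        push Not at hcon
        have := Finset.card_le_card (show (Finset.univ : Finset (Fin 4)) ⊆ _ from hcon)
        simp at this
        omega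
      rw [Finset.mem_union, mem_Kc, mem_Kc] at hs
      push Not at hs
      obtain ⟨r, -, hr⟩ : ∃ r ∈ (Finset.univ : Finset (Fin 4)), r ∉ insert s (Kc H x z) := by
        by_contra hcon
        push Not at hcon
        have h1 := Finset.card_le_card (show (Finset.univ : Finset (Fin 4)) ⊆ _ from hcon)
        have h2 := Finset.card_insert_le s (Kc H x z)
        simp at h1
        omega
      rw [Finset.mem_insert, mem_Kc] at hr
      push Not at hr
      have hr0 : r ≠ c₀ := fun h1 => hr.2 (h1 ▸ h0x)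
      have hs0 : c₀ ≠ s := fun h1 => hs.1 (h1 ▸ h0x)
      refine h.attach r c₀ s hr0 hr.1 hs0 hr.2 h0y hs.1 hs.2 ?_
      intro T hT m1 m2 m3
      have hM := hT.union h.good.cnt htxz hr.1 m1 (meets_of_mem (by simp)) m3
        (meets_of_mem (by simp))
      exact h.bad _ hM (meets_of_mem (by simp)) (m2.mono Finset.subset_union_left)
  · have hP1 : (Kc H x z).card = 1 := by
      have : 0 < (Kc H x z).card := Finset.card_pos.mpr ⟨c₀, h0P⟩
      omega
    have hPc : ∀ c, (H c).Reachable x z → c = c₀ := by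
      intro c hc
      obtain ⟨d, hd⟩ := Finset.card_eq_one.mp hP1
      have h1 : c ∈ Kc H x z := mem_Kc.mpr hc
      rw [hd, Finset.mem_singleton] at h1 h0P
      rw [h1, h0P]
    by_cases hR : (Kc H y z).card = 2
    · have htyz : Tight H {y, z} := tight_pair h.hyz hR
      have hlt : (Kc H x z ∪ Kc H y z).card < 4 := by omega
      obtain ⟨s, -, hs⟩ : ∃ s ∈ (Finset.univ : Finset (Fin 4)), s ∉ Kc H x z ∪ Kc H y z := by
        by_contra hcon
        push Not at hcon
        have := Finset.card_le_card (show (Finset.univ : Finset (Fin 4)) ⊆ _ from hcon)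
        simp at this
        omega
      rw [Finset.mem_union, mem_Kc, mem_Kc] at hs
      push Not at hs
      have hs0 : s ≠ c₀ := fun h1 => hs.1 (h1 ▸ h0x)
      obtain ⟨r, hr1, hr2⟩ := exists_ne_two c₀ s
      refine h.attach r c₀ s hr1 hr2 hs0.symm (fun h1 => hr1 (hPc r h1)) h0y hs.1 hs.2 ?_
      intro T hT m1 m2 m3
      have hM := hT.union h.good.cnt htyz hs0.symm m2 (meets_of_mem (by simp)) m3
        (meets_of_mem (by simp))
      exact h.bad _ hM ⟨z, by simp, h0x⟩ (meets_of_mem (by simp))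
    · -- `y` and `z` are connected by at most one colour
      have hR1 : (Kc H y z).card ≤ 1 := by omega
      obtain ⟨r, hr0, hrR⟩ : ∃ r, r ≠ c₀ ∧ ∀ c, (H c).Reachable y z → c = r := by
        rcases (Kc H y z).eq_empty_or_nonempty with he | ⟨r, hr⟩
        · obtain ⟨r, hr1, -⟩ := exists_ne_two c₀ c₀
          refine ⟨r, hr1, fun c hc => ?_⟩
          have : c ∈ Kc H y z := mem_Kc.mpr hc
          rw [he] at this
          exact absurd this (Finset.notMem_empty c)
        · refine ⟨r, fun h1 => h0y (h1 ▸ mem_Kc.mp hr), fun c hc => ?_⟩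
          exact Finset.card_le_one.mp hR1 c (mem_Kc.mpr hc) r hr
      obtain ⟨s, hs0, hsr⟩ := exists_ne_two c₀ r
      obtain ⟨t, ht0, htr, hts⟩ := exists_ne_three c₀ r s
      by_contra hcon
      have hbad1 : ∃ T : Finset V, Tight H T ∧ Meets H r x T ∧ Meets H c₀ y T ∧
          Meets H s z T := by
        by_contra hno
        push Not at hno
        exact hcon (h.attach r c₀ s hr0 hsr.symm hs0.symm (fun h1 => hr0 (hPc r h1)) h0y
          (fun h1 => hs0 (hPc s h1)) (fun h1 => hsr (hrR s h1)) hno)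
      have hbad2 : ∃ T : Finset V, Tight H T ∧ Meets H r x T ∧ Meets H c₀ y T ∧
          Meets H t z T := by
        by_contra hno
        push Not at hno
        exact hcon (h.attach r c₀ t hr0 htr.symm ht0.symm (fun h1 => hr0 (hPc r h1)) h0y
          (fun h1 => ht0 (hPc t h1)) (fun h1 => htr (hrR t h1)) hno)
      obtain ⟨T₁, ht1, a1, a2, a3⟩ := hbad1
      obtain ⟨T₂, ht2, b1, b2, b3⟩ := hbad2
      have hM := ht1.union h.good.cnt ht2 hr0 a1 b1 a2 b2
      have hM2 := hM.union h.good.cnt (tight_singleton H z) hts.symm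
        (a3.mono Finset.subset_union_left) (meets_of_mem (Finset.mem_singleton_self z))
        (b3.mono Finset.subset_union_right) (meets_of_mem (Finset.mem_singleton_self z))
      exact h.bad _ hM2 ⟨z, by simp, h0x⟩
        ((a2.mono Finset.subset_union_left).mono Finset.subset_union_left)

/-- The free non-adjacent pair case. -/
theorem step_free {m m₀ m' : V → V → ℕ} {v x y z : V} (hxy : x ≠ y) (hxz : x ≠ z) (hyz : y ≠ z)
    (st : Step m m₀ v x y z) (hm' : ∀ p q, m' p q = m₀ p q + dl x y p q)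
    (h0 : m₀ x y = 0) (h0' : m₀ y x = 0) {H : Fin 4 → SimpleGraph V} (hH : Good m' H) :
    ∃ H', Good m H' := by
  obtain ⟨hxv, hyv, hzv⟩ := st.ne
  have h1 : m' x y = 1 := by
    rw [hm', h0]; unfold dl; rw [if_pos (Or.inl ⟨rfl, rfl⟩)]
  obtain ⟨c₀, hc₀⟩ := hH.exists_adj (x := x) (y := y) (by omega)
  have honly : ∀ c, (H c).Adj x y → c = c₀ := by
    intro c hc
    have h2 := hH.num x y
    rw [h1] at h2
    exact Finset.card_le_one.mp h2.le c (by simpa using hc) c₀ (by simpa using hc₀)
  have hGm : Good m₀ (del H c₀ x y) := hH.delEdge hm' hc₀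
  have hnr0 := not_reachable_del (hH.ac c₀) hc₀
  have sit : Sit m m₀ v x y z (del H c₀ x y) c₀ := by
    refine ⟨hxy, hxz, hyz, st, hGm, ?_, ?_⟩
    · intro c hr
      by_cases hc : c = c₀
      · rw [hc] at hr; exact hnr0 hr
      · rw [del_ne H c₀ x y hc] at hr
        exact hc (honly c (hH.flat c x y (by omega) hr))
    · intro T hT h3 h4
      exact not_tight_of_del hH.cnt c₀ (hH.ac c₀) hc₀ hT h3 h4
  by_cases hx : (del H c₀ x y c₀).Reachable x z
  · exact sit.case2 hx
  by_cases hy : (del H c₀ x y c₀).Reachable y z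
  · have sit' := sit.swap
    exact sit'.case2 hy
  -- `c₀` connects neither `x` nor `y` to `z`
  by_cases hex : ∃ c₃, c₃ ≠ c₀ ∧ ¬ (del H c₀ x y c₃).Reachable x z ∧
      ¬ (del H c₀ x y c₃).Reachable y z
  · obtain ⟨c₃, h30, h3x, h3y⟩ := hex
    rw [del_ne H c₀ x y h30] at h3x h3y
    refine attach_merge (m := m) (m₀ := m') v H c₀ c₃ h30.symm x y z hxv hyv hzv hxy hH ?_ hc₀ h1
      ?_ st.hmv st.hmv' ?_ ?_
    · intro q
      rw [hm', st.hv]
      unfold dl
      rw [if_neg]
      rintro (⟨h, -⟩ | ⟨h, -⟩)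
      · exact hxv h.symm
      · exact hyv h.symm
    · intro p q hp hq
      rw [st.hm p q hp hq, hm' p q]
      unfold dl
      split_ifs with h
      · rcases h with ⟨h2, h3⟩ | ⟨h2, h3⟩
        · rw [h2, h3]; exact h0
        · rw [h2, h3]; exact h0'
      · rfl
    · intro q hpos hr
      by_contra hcon
      push Not at hcon
      have hq : q = z := by
        by_contra hqz
        rw [st.hmv q, if_neg hcon.1, if_neg hcon.2, if_neg hqz] at hpos
        exact absurd hpos (by norm_num)
      rw [hq] at hr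
      have h2 := reachable_or (y := y) hr
      rw [← del_self] at h2
      rcases h2 with h2 | h2
      · exact hx h2
      · exact hy h2
    · intro q hpos hr
      by_contra hcon
      have hq : q = x ∨ q = y := by
        by_contra hqxy
        push Not at hqxy
        rw [st.hmv q, if_neg hqxy.1, if_neg hqxy.2, if_neg hcon] at hpos
        exact absurd hpos (by norm_num)
      rcases hq with h | h
      · rw [h] at hr; exact h3x hr.symm
      · rw [h] at hr; exact h3y hr.symm
  · -- every colour different from `c₀` connects `x` or `y` to `z`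
    push Not at hex
    have hcover : ∀ c, c ≠ c₀ → c ∈ Kc (del H c₀ x y) x z ∨ c ∈ Kc (del H c₀ x y) y z := by
      intro c hc
      rw [mem_Kc, mem_Kc]
      by_cases h2 : (del H c₀ x y c).Reachable x z
      · exact Or.inl h2
      · exact Or.inr (hex c hc h2)
    have hcP := card_Kc_le hGm.cnt hxz
    have hcR := card_Kc_le hGm.cnt hyz
    have hsub : (Finset.univ : Finset (Fin 4)).erase c₀ ⊆
        Kc (del H c₀ x y) x z ∪ Kc (del H c₀ x y) y z := by
      intro c hc
      rw [Finset.mem_erase] at hc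
      rw [Finset.mem_union]
      exact hcover c hc.1
    have h3 : 3 ≤ (Kc (del H c₀ x y) x z).card + (Kc (del H c₀ x y) y z).card := by
      have h4 := (Finset.card_le_card hsub).trans (Finset.card_union_le _ _)
      rw [Finset.card_erase_of_mem (Finset.mem_univ _)] at h4
      simpa using h4
    by_cases hP : (Kc (del H c₀ x y) x z).card = 2
    · obtain ⟨r, hr⟩ : (Kc (del H c₀ x y) y z).Nonempty := Finset.card_pos.mp (by omega)
      exact sit.case1 hx hy hP (mem_Kc.mp hr)
    · obtain ⟨r, hr⟩ : (Kc (del H c₀ x y) x z).Nonempty := Finset.card_pos.mp (by omega)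
      exact sit.swap.case1 hy hx (by omega) (mem_Kc.mp hr)

/-- The case where the three neighbours form a simple triangle. -/
theorem step_tri {m m₀ m' : V → V → ℕ} {v x y z : V} (hxy : x ≠ y) (hxz : x ≠ z) (hyz : y ≠ z)
    (st : Step m m₀ v x y z) (hm' : ∀ p q, m' p q = m₀ p q + dl x y p q)
    (m1 : m₀ x y = 1) (m2 : m₀ y z = 1) (m3 : m₀ x z = 1) {H : Fin 4 → SimpleGraph V}
    (hH : Good m' H) : ∃ H', Good m H' := by
  have e1 : m' x y = 2 := by
    rw [hm', m1]; unfold dl; rw [if_pos (Or.inl ⟨rfl, rfl⟩)]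
  have e2 : m' y z = 1 := by
    rw [hm', m2]; unfold dl
    rw [if_neg]
    rintro (⟨h, -⟩ | ⟨-, h⟩)
    · exact hxy h.symm
    · exact hxz h.symm
  have e3 : m' x z = 1 := by
    rw [hm', m3]; unfold dl
    rw [if_neg]
    rintro (⟨-, h⟩ | ⟨h, -⟩)
    · exact hyz h.symm
    · exact hxy h
  have h2 := hH.num x y
  rw [e1] at h2
  obtain ⟨α, δ, hαδ, hset⟩ := Finset.card_eq_two.mp h2
  have hmem : ∀ c, (H c).Adj x y ↔ c = α ∨ c = δ := by
    intro c
    have h3 : c ∈ Finset.univ.filter (fun c => (H c).Adj x y) ↔ c ∈ ({α, δ} : Finset (Fin 4)) := by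
      rw [hset]
    simpa using h3
  have hα : (H α).Adj x y := (hmem α).mpr (Or.inl rfl)
  have hδ : (H δ).Adj x y := (hmem δ).mpr (Or.inr rfl)
  obtain ⟨β, hβ⟩ := hH.exists_adj (x := y) (y := z) (by omega)
  obtain ⟨γ, hγ⟩ := hH.exists_adj (x := x) (y := z) (by omega)
  have uβ : ∀ c, (H c).Reachable y z → c = β := by
    intro c hc
    have h3 := hH.flat c y z (by omega) hc
    have h4 := hH.num y z
    rw [e2] at h4
    exact Finset.card_le_one.mp h4.le c (by simpa using h3) β (by simpa using hβ)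
  have uγ : ∀ c, (H c).Reachable x z → c = γ := by
    intro c hc
    have h3 := hH.flat c x z (by omega) hc
    have h4 := hH.num x z
    rw [e3] at h4
    exact Finset.card_le_one.mp h4.le c (by simpa using h3) γ (by simpa using hγ)
  have notri : ∀ c, (H c).Adj x y → ¬ (H c).Reachable y z := by
    intro c h3 h4
    have h5 := hH.flat c y z (by omega) h4
    have h6 := hH.flat c x z (by omega) (h3.reachable.trans h4)
    exact no_triangle (hH.ac c) h3 h5 h6
  have notri' : ∀ c, (H c).Adj x y → ¬ (H c).Reachable x z := by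
    intro c h3 h4
    exact notri c h3 (h3.symm.reachable.trans h4)
  have hβγ : β ≠ γ := by
    intro h
    have h3 : (H β).Reachable x z := h ▸ hγ.reachable
    have h4 := hH.flat β x y (by omega) (h3.trans hβ.symm.reachable)
    exact notri β h4 hβ.reachable
  have hβα : β ≠ α := fun h => notri α hα (h ▸ hβ.reachable)
  have hβδ : β ≠ δ := fun h => notri δ hδ (h ▸ hβ.reachable)
  have hγα : γ ≠ α := fun h => notri' α hα (h ▸ hγ.reachable)
  have hγδ : γ ≠ δ := fun h => notri' δ hδ (h ▸ hγ.reachable)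
  have hGm : Good m₀ (del H δ x y) := hH.delEdge hm' hδ
  -- connecting colours after the removal
  have kxy : ∀ c, c ≠ α → ¬ (del H δ x y c).Reachable x y := by
    intro c hcα hr
    by_cases hc : c = δ
    · rw [hc] at hr; exact not_reachable_del (hH.ac δ) hδ hr
    · rw [del_ne H δ x y hc] at hr
      have h3 := hH.flat c x y (by omega) hr
      rcases (hmem c).mp h3 with h | h
      · exact hcα h
      · exact hc h
  have kyz : ∀ c, c ≠ β → ¬ (del H δ x y c).Reachable y z :=
    fun c hc hr => hc (uβ c (hr.mono (del_le H δ x y c)))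
  have kxz : ∀ c, c ≠ γ → ¬ (del H δ x y c).Reachable x z :=
    fun c hc hr => hc (uγ c (hr.mono (del_le H δ x y c)))
  have att : ∀ a b d : Fin 4, a ≠ b → a ≠ d → b ≠ d → a ≠ α → b ≠ α → a ≠ γ → b ≠ β → d ≠ γ →
      d ≠ β → (∀ T : Finset V, Tight (del H δ x y) T → Meets (del H δ x y) a x T →
        Meets (del H δ x y) b y T → Meets (del H δ x y) d z T → False) → ∃ H', Good m H' := by
    intro a b d hab had hbd haα hbα haγ hbβ hdγ hdβ hT
    exact attach_three v (del H δ x y) hGm st.hv st.hm x y z st.hmv st.hmv' st.hvv a b d hab had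
      hbd (fun hr => absurd hr (kxy a haα)) (fun hr => absurd hr (kxz a haγ))
      (fun hr => absurd hr.symm (kxy b hbα)) (fun hr => absurd hr (kyz b hbβ))
      (fun hr => absurd hr.symm (kxz d hdγ)) (fun hr => absurd hr.symm (kyz d hdβ)) hT
  by_contra hcon
  have bad1 : ∃ T : Finset V, Tight (del H δ x y) T ∧ Meets (del H δ x y) β x T ∧
      Meets (del H δ x y) γ y T ∧ Meets (del H δ x y) α z T := by
    by_contra hno
    push Not at hno
    exact hcon (att β γ α hβγ hβα hγα hβα hγα hβγ hβγ.symm hγα.symm hβα.symm hno)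
  have bad2 : ∃ T : Finset V, Tight (del H δ x y) T ∧ Meets (del H δ x y) δ x T ∧
      Meets (del H δ x y) γ y T ∧ Meets (del H δ x y) α z T := by
    by_contra hno
    push Not at hno
    exact hcon (att δ γ α hγδ.symm hαδ.symm hγα hαδ.symm hγα hγδ.symm hβγ.symm hγα.symm
      hβα.symm hno)
  have bad3 : ∃ T : Finset V, Tight (del H δ x y) T ∧ Meets (del H δ x y) β x T ∧
      Meets (del H δ x y) δ y T ∧ Meets (del H δ x y) α z T := by
    by_contra hno
    push Not at hno
    exact hcon (att β δ α hβδ hβα hαδ.symm hβα hαδ.symm hβγ hβδ.symm hγα.symm hβα.symm hno)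
  obtain ⟨T₁, t1, a1, a2, a3⟩ := bad1
  obtain ⟨T₂, t2, b1, b2, b3⟩ := bad2
  obtain ⟨T₃, t3, d1, d2, d3⟩ := bad3
  have hM := t1.union hGm.cnt t2 hγα a2 b2 a3 b3
  have hM2 := hM.union hGm.cnt t3 hβα (a1.mono Finset.subset_union_left) d1
    (a3.mono Finset.subset_union_left) d3
  exact not_tight_of_del hH.cnt δ (hH.ac δ) hδ hM2
    ((b1.mono Finset.subset_union_right).mono Finset.subset_union_left)
    (d2.mono Finset.subset_union_right)

end Pool.Agent.Helper83.SA
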