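import Pool.Agent.Helper83.SA.Defs

/-!
# Strong arboricity (MP_96bd24_co): families of four forests, block counts and tight sets
-/

namespace Pool.Agent.Helper83.SA

open Finset
open scoped Classical

variable {V : Type*}

/-- The total number of components (blocks) of the four graphs meeting `T`. -/
noncomputable def cnt (H : Fin 4 → SimpleGraph V) (T : Finset V) : ℕ :=
  ∑ c, (T.image (fun x => (H c).connectedComponentMk x)).card

/-- The block of `x` in colour `c` meets `T`. -/
def Meets (H : Fin 4 → SimpleGraph V) (c : Fin 4) (x : V) (T : Finset V) : Prop :=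
  ∃ q ∈ T, (H c).Reachable x q

/-- The counting condition. -/
def Cnt (H : Fin 4 → SimpleGraph V) : Prop :=
  ∀ T : Finset V, T.Nonempty → 2 * T.card + 2 ≤ cnt H T

/-- Tight sets. -/
def Tight (H : Fin 4 → SimpleGraph V) (T : Finset V) : Prop :=
  T.Nonempty ∧ cnt H T = 2 * T.card + 2

theorem card_image_le_of {W α β : Type*} (T : Finset W) (f : W → α) (g : W → β)
    (h : ∀ a ∈ T, ∀ b ∈ T, g a = g b → f a = f b) : (T.image f).card ≤ (T.image g).card := by
  rcases T.eq_empty_or_nonempty with rfl | ⟨t0, ht0⟩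
  · simp
  let e : β → α := fun b => if hb : ∃ a ∈ T, g a = b then f hb.choose else f t0
  have he : ∀ a ∈ T, e (g a) = f a := by
    intro a ha
    have hb : ∃ a' ∈ T, g a' = g a := ⟨a, ha, rfl⟩
    simp only [e, dif_pos hb]
    exact h _ hb.choose_spec.1 _ ha hb.choose_spec.2
  have hsub : T.image f ⊆ (T.image g).image e := by
    intro y hy
    obtain ⟨a, ha, rfl⟩ := Finset.mem_image.mp hy
    exact Finset.mem_image.mpr ⟨g a, Finset.mem_image_of_mem g ha, he a ha⟩
  exact (Finset.card_le_card hsub).trans Finset.card_image_le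

theorem card_image_lt_of {W α β : Type*} (T : Finset W) (f : W → α) (g : W → β)
    (h : ∀ a ∈ T, ∀ b ∈ T, g a = g b → f a = f b) (a b : W) (ha : a ∈ T) (hb : b ∈ T)
    (hf : f a = f b) (hg : g a ≠ g b) : (T.image f).card < (T.image g).card := by
  let e : β → α := fun b => if hb : ∃ a ∈ T, g a = b then f hb.choose else f a
  have he : ∀ a ∈ T, e (g a) = f a := by
    intro a ha
    have hb : ∃ a' ∈ T, g a' = g a := ⟨a, ha, rfl⟩
    simp only [e, dif_pos hb]
    exact h _ hb.choose_spec.1 _ ha hb.choose_spec.2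
  have hsub : T.image f ⊆ ((T.image g).erase (g b)).image e := by
    intro y hy
    obtain ⟨a', ha', rfl⟩ := Finset.mem_image.mp hy
    by_cases h1 : g a' = g b
    · have h2 : f a' = f a := (h a' ha' b hb h1).trans hf.symm
      refine Finset.mem_image.mpr ⟨g a, ?_, ?_⟩
      · exact Finset.mem_erase.mpr ⟨hg, Finset.mem_image_of_mem g ha⟩
      · rw [he a ha, h2]
    · exact Finset.mem_image.mpr ⟨g a', Finset.mem_erase.mpr ⟨h1, Finset.mem_image_of_mem g ha'⟩,
        he a' ha'⟩
  have h1 := (Finset.card_le_card hsub).trans Finset.card_image_le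
  have h2 := Finset.card_erase_of_mem (Finset.mem_image_of_mem g hb)
  have h3 : 0 < (T.image g).card := Finset.card_pos.mpr ⟨_, Finset.mem_image_of_mem g hb⟩
  omega

theorem card_image_congr {W α β : Type*} (T : Finset W) (f : W → α) (g : W → β)
    (h : ∀ a ∈ T, ∀ b ∈ T, f a = f b ↔ g a = g b) : (T.image f).card = (T.image g).card :=
  le_antisymm (card_image_le_of T f g (fun a ha b hb => (h a ha b hb).mpr))
    (card_image_le_of T g f (fun a ha b hb => (h a ha b hb).mp))

theorem mk_eq {G : SimpleGraph V} {x y : V} :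
    G.connectedComponentMk x = G.connectedComponentMk y ↔ G.Reachable x y :=
  SimpleGraph.ConnectedComponent.eq

theorem cnt_congr {H H' : Fin 4 → SimpleGraph V} (T : Finset V)
    (h : ∀ c, ∀ a ∈ T, ∀ b ∈ T, (H c).Reachable a b ↔ (H' c).Reachable a b) :
    cnt H T = cnt H' T := by
  unfold cnt
  refine Finset.sum_congr rfl (fun c _ => ?_)
  refine card_image_congr T _ _ (fun a ha b hb => ?_)
  rw [mk_eq, mk_eq]
  exact h c a ha b hb

theorem cnt_le_of_le {H H' : Fin 4 → SimpleGraph V} (hle : ∀ c, H c ≤ H' c) (T : Finset V) :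
    cnt H' T ≤ cnt H T := by
  unfold cnt
  refine Finset.sum_le_sum (fun c _ => ?_)
  refine card_image_le_of T _ _ (fun a _ b _ hab => ?_)
  rw [mk_eq] at hab ⊢
  exact hab.mono (hle c)

theorem meets_of_mem {H : Fin 4 → SimpleGraph V} {c : Fin 4} {x : V} {T : Finset V} (hx : x ∈ T) :
    Meets H c x T := ⟨x, hx, SimpleGraph.Reachable.refl x⟩

theorem Meets.mono {H : Fin 4 → SimpleGraph V} {c : Fin 4} {x : V} {T T' : Finset V}
    (h : Meets H c x T) (hT : T ⊆ T') : Meets H c x T' := by
  obtain ⟨q, hq, hr⟩ := h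
  exact ⟨q, hT hq, hr⟩

theorem meets_iff {H : Fin 4 → SimpleGraph V} {c : Fin 4} {x : V} {T : Finset V} :
    Meets H c x T ↔ (H c).connectedComponentMk x ∈
      T.image (fun x => (H c).connectedComponentMk x) := by
  rw [Finset.mem_image]
  constructor
  · rintro ⟨q, hq, hr⟩
    exact ⟨q, hq, mk_eq.mpr hr.symm⟩
  · rintro ⟨q, hq, hr⟩
    exact ⟨q, hq, (mk_eq.mp hr).symm⟩

theorem tight_singleton (H : Fin 4 → SimpleGraph V) (x : V) : Tight H {x} := by
  refine ⟨Finset.singleton_nonempty x, ?_⟩
  unfold cnt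
  simp

/-- Two tight sets sharing a vertex or two blocks of different colours have a tight union. -/
theorem Tight.union {H : Fin 4 → SimpleGraph V} (hH : Cnt H) {T₁ T₂ : Finset V}
    (h₁ : Tight H T₁) (h₂ : Tight H T₂) {c c' : Fin 4} (hc : c ≠ c') {x x' : V}
    (m1 : Meets H c x T₁) (m2 : Meets H c x T₂) (m3 : Meets H c' x' T₁) (m4 : Meets H c' x' T₂) :
    Tight H (T₁ ∪ T₂) := by
  obtain ⟨hn1, ht1⟩ := h₁
  obtain ⟨hn2, ht2⟩ := h₂
  refine ⟨hn1.mono Finset.subset_union_left, ?_⟩
  have hlow := hH (T₁ ∪ T₂) (hn1.mono Finset.subset_union_left)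
  have hcard := Finset.card_union_add_card_inter T₁ T₂
  refine le_antisymm ?_ hlow
  by_cases hne : (T₁ ∩ T₂).Nonempty
  · have h3 : cnt H (T₁ ∪ T₂) + cnt H (T₁ ∩ T₂) ≤ cnt H T₁ + cnt H T₂ := by
      unfold cnt
      rw [← Finset.sum_add_distrib, ← Finset.sum_add_distrib]
      refine Finset.sum_le_sum (fun d _ => ?_)
      rw [Finset.image_union]
      have h4 := Finset.card_union_add_card_inter
        (T₁.image (fun x => (H d).connectedComponentMk x))
        (T₂.image (fun x => (H d).connectedComponentMk x))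
      have h5 : ((T₁ ∩ T₂).image (fun x => (H d).connectedComponentMk x)).card ≤
          (T₁.image (fun x => (H d).connectedComponentMk x) ∩
            T₂.image (fun x => (H d).connectedComponentMk x)).card :=
        Finset.card_le_card (Finset.image_inter_subset _ _ _)
      omega
    have h6 := hH _ hne
    omega
  · have hempty : (T₁ ∩ T₂).card = 0 := by
      rw [Finset.card_eq_zero]
      exact Finset.not_nonempty_iff_eq_empty.mp hne
    have h3 : cnt H (T₁ ∪ T₂) + 2 ≤ cnt H T₁ + cnt H T₂ := by
      have h4 : cnt H (T₁ ∪ T₂) + ∑ d, (T₁.image (fun x => (H d).connectedComponentMk x) ∩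
            T₂.image (fun x => (H d).connectedComponentMk x)).card = cnt H T₁ + cnt H T₂ := by
        unfold cnt
        rw [← Finset.sum_add_distrib, ← Finset.sum_add_distrib]
        refine Finset.sum_congr rfl (fun d _ => ?_)
        rw [Finset.image_union]
        exact Finset.card_union_add_card_inter _ _
      have h5 : 2 ≤ ∑ d, (T₁.image (fun x => (H d).connectedComponentMk x) ∩
            T₂.image (fun x => (H d).connectedComponentMk x)).card := by
        have h6 : ∑ d ∈ ({c, c'} : Finset (Fin 4)),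
            (T₁.image (fun x => (H d).connectedComponentMk x) ∩
            T₂.image (fun x => (H d).connectedComponentMk x)).card ≤
            ∑ d, (T₁.image (fun x => (H d).connectedComponentMk x) ∩
            T₂.image (fun x => (H d).connectedComponentMk x)).card :=
          Finset.sum_le_sum_of_subset (Finset.subset_univ _)
        rw [Finset.sum_pair hc] at h6
        have h7 : 0 < (T₁.image (fun x => (H c).connectedComponentMk x) ∩
            T₂.image (fun x => (H c).connectedComponentMk x)).card :=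
          Finset.card_pos.mpr ⟨_, Finset.mem_inter.mpr ⟨meets_iff.mp m1, meets_iff.mp m2⟩⟩
        have h8 : 0 < (T₁.image (fun x => (H c').connectedComponentMk x) ∩
            T₂.image (fun x => (H c').connectedComponentMk x)).card :=
          Finset.card_pos.mpr ⟨_, Finset.mem_inter.mpr ⟨meets_iff.mp m3, meets_iff.mp m4⟩⟩
        omega
      omega
    omega

/-- The colours connecting `x` and `y`. -/
noncomputable def Kc (H : Fin 4 → SimpleGraph V) (x y : V) : Finset (Fin 4) :=
  Finset.univ.filter (fun c => (H c).Reachable x y)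

theorem mem_Kc {H : Fin 4 → SimpleGraph V} {x y : V} {c : Fin 4} :
    c ∈ Kc H x y ↔ (H c).Reachable x y := by
  simp [Kc]

theorem cnt_pair (H : Fin 4 → SimpleGraph V) (x y : V) :
    cnt H {x, y} + (Kc H x y).card = 8 := by
  unfold cnt Kc
  rw [Finset.card_filter, ← Finset.sum_add_distrib]
  have h1 : ∀ c : Fin 4, ((({x, y} : Finset V).image
      (fun x => (H c).connectedComponentMk x)).card +
      if (H c).Reachable x y then 1 else 0) = 2 := by
    intro c
    rw [Finset.image_insert, Finset.image_singleton]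
    by_cases h : (H c).Reachable x y
    · rw [if_pos h, mk_eq.mpr h]
      simp
    · rw [if_neg h, Finset.card_pair (fun h' => h (mk_eq.mp h'))]
  rw [Finset.sum_congr rfl (fun c _ => h1 c)]
  simp

theorem card_Kc_le {H : Fin 4 → SimpleGraph V} (hH : Cnt H) {x y : V} (hxy : x ≠ y) :
    (Kc H x y).card ≤ 2 := by
  have h1 := cnt_pair H x y
  have h2 := hH {x, y} (Finset.insert_nonempty _ _)
  rw [Finset.card_pair hxy] at h2
  omega

theorem tight_pair {H : Fin 4 → SimpleGraph V} {x y : V} (hxy : x ≠ y)
    (h : (Kc H x y).card = 2) : Tight H {x, y} := by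
  refine ⟨Finset.insert_nonempty _ _, ?_⟩
  have h1 := cnt_pair H x y
  rw [Finset.card_pair hxy]
  omega

/-- Removing the edge `x y` from colour `c₀`. -/
noncomputable def del (H : Fin 4 → SimpleGraph V) (c₀ : Fin 4) (x y : V) : Fin 4 → SimpleGraph V :=
  Function.update H c₀ ((H c₀).deleteEdges {s(x, y)})

theorem del_le (H : Fin 4 → SimpleGraph V) (c₀ : Fin 4) (x y : V) (c : Fin 4) :
    del H c₀ x y c ≤ H c := by
  unfold del
  by_cases h : c = c₀
  · subst h
    rw [Function.update_self]
    exact SimpleGraph.deleteEdges_le _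
  · rw [Function.update_of_ne h]

theorem del_self (H : Fin 4 → SimpleGraph V) (c₀ : Fin 4) (x y : V) :
    del H c₀ x y c₀ = (H c₀).deleteEdges {s(x, y)} := by
  unfold del
  rw [Function.update_self]

theorem del_ne (H : Fin 4 → SimpleGraph V) (c₀ : Fin 4) (x y : V) {c : Fin 4} (h : c ≠ c₀) :
    del H c₀ x y c = H c := by
  unfold del
  rw [Function.update_of_ne h]

theorem Cnt.del {H : Fin 4 → SimpleGraph V} (hH : Cnt H) (c₀ : Fin 4) (x y : V) :
    Cnt (del H c₀ x y) := fun T hT =>
  (hH T hT).trans (cnt_le_of_le (del_le H c₀ x y) T)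

/-- After removing the edge `x y` of colour `c₀` no tight set meets both parts of its block. -/
theorem not_tight_of_del {H : Fin 4 → SimpleGraph V} (hH : Cnt H) (c₀ : Fin 4) {x y : V}
    (hac : (H c₀).IsAcyclic) (hadj : (H c₀).Adj x y) {T : Finset V}
    (hT : Tight (del H c₀ x y) T) (mx : Meets (del H c₀ x y) c₀ x T)
    (my : Meets (del H c₀ x y) c₀ y T) : False := by
  obtain ⟨hne, htight⟩ := hT
  have hlow := hH T hne
  have hlt : cnt H T < cnt (del H c₀ x y) T := by
    unfold cnt
    refine Finset.sum_lt_sum (fun c _ => ?_) ⟨c₀, Finset.mem_univ _, ?_⟩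
    · refine card_image_le_of T _ _ (fun a _ b _ hab => ?_)
      rw [mk_eq] at hab ⊢
      exact hab.mono (del_le H c₀ x y c)
    · obtain ⟨a, ha, hxa⟩ := mx
      obtain ⟨b, hb, hyb⟩ := my
      refine card_image_lt_of T _ _ (fun a _ b _ hab => ?_) a b ha hb ?_ ?_
      · rw [mk_eq] at hab ⊢
        exact hab.mono (del_le H c₀ x y c₀)
      · rw [mk_eq]
        have h1 := hxa.mono (del_le H c₀ x y c₀)
        have h2 := hyb.mono (del_le H c₀ x y c₀)
        exact h1.symm.trans (hadj.reachable.trans h2)
      · rw [Ne, mk_eq]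
        intro h3
        have h4 : (del H c₀ x y c₀).Reachable x y := hxa.trans (h3.trans hyb.symm)
        rw [del_self] at h4
        have h5 := (SimpleGraph.isAcyclic_iff_forall_adj_isBridge.mp hac) hadj
        rw [SimpleGraph.isBridge_iff] at h5
        exact h5 h4
  omega

end Pool.Agent.Helper83.SA
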