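import Pool.Agent.Helper83.SA.Three
import Pool.Agent.Helper83.SA.Linear

/-!
# Strong arboricity (MP_96bd24_co): graphs of arboricity at most two

Every multigraph satisfying the edge condition of arboricity two has a good colouring by four
forests; hence `zeta G ≤ 2 * arb G` whenever `arb G ≤ 2`.
-/

namespace Pool.Agent.Helper83.SA

open Finset
open scoped Classical

variable {V : Type*}

theorem good_bot : Good (fun _ _ : V => 0) (fun _ => ⊥) := by
  refine ⟨fun _ => SimpleGraph.isAcyclic_bot, ?_, ?_, ?_⟩
  · intro x y
    simp
  · intro c x y h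
    exact absurd h (lt_irrefl 0)
  · intro T hT
    have h1 : cnt (fun _ : Fin 4 => (⊥ : SimpleGraph V)) T = 4 * T.card := by
      unfold cnt
      have h2 : ∀ c : Fin 4, (T.image (fun x =>
          (⊥ : SimpleGraph V).connectedComponentMk x)).card = T.card := by
        intro c
        refine Finset.card_image_of_injective _ ?_
        intro a b hab
        rw [mk_eq] at hab
        exact eq_of_reachable_isolated (fun u h => h) hab
      rw [Finset.sum_congr rfl (fun c _ => h2 c)]
      simp
    rw [h1]
    have : 1 ≤ T.card := Finset.card_pos.mpr hT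
    omega

theorem exists_good (n : ℕ) : ∀ (S : Finset V) (m : V → V → ℕ), S.card = n →
    (∀ p q, m p q = m q p) → (∀ p, m p p = 0) → (∀ p q, p ∉ S → m p q = 0) → Sparse m →
    ∃ H, Good m H := by
  induction n with
  | zero =>
    intro S m hS _ _ hsupp _
    have hSe : S = ∅ := Finset.card_eq_zero.mp hS
    have hm0 : m = fun _ _ => 0 := by
      funext p q
      exact hsupp p q (by rw [hSe]; exact Finset.notMem_empty p)
    rw [hm0]
    exact ⟨_, good_bot⟩
  | succ n ih =>
    intro S m hS hs hi hsupp hQ
    have hSne : S.Nonempty := Finset.card_pos.mp (by omega)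
    obtain ⟨v, hv, hdeg⟩ := exists_small_degree hQ hSne
    have hScard : (S.erase v).card = n := by
      rw [Finset.card_erase_of_mem hv, hS]; rfl
    -- the state for the graph without `v`
    have hsupp0 : ∀ p q, p ∉ S.erase v → delv m v p q = 0 := by
      intro p q hp
      unfold delv
      split_ifs with h
      · rfl
      · push Not at h
        exact hsupp p q (fun hpS => hp (Finset.mem_erase.mpr ⟨h.1, hpS⟩))
    have hv0 : ∀ q, delv m v v q = 0 := by
      intro q
      unfold delv
      rw [if_pos (Or.inl rfl)]
    have hm0 : ∀ p q, p ≠ v → q ≠ v → m p q = delv m v p q := fun p q hp hq =>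
      (delv_of_ne m hp hq).symm
    have hIH0 : ∃ B, Good (delv m v) B :=
      ih (S.erase v) (delv m v) hScard (delv_symm hs v) (delv_irr hi v) hsupp0 (sparse_delv hQ v)
    -- the state for the graph without `v` and with an additional edge
    have hIH1 : ∀ x y, x ≠ y → x ≠ v → y ≠ v → x ∈ S → y ∈ S → ¬ NF m v x y →
        ∃ B, Good (fun p q => delv m v p q + dl x y p q) B := by
      intro x y hxy hx hy hxS hyS hf
      refine ih (S.erase v) _ hScard ?_ ?_ ?_ ?_
      · intro p q
        rw [delv_symm hs v p q, dl_symm x y p q]
      · intro p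
        rw [delv_irr hi v p, dl_irr hxy p]
      · intro p q hp
        rw [hsupp0 p q hp, zero_add]
        unfold dl
        rw [if_neg]
        rintro (⟨h, -⟩ | ⟨h, -⟩)
        · exact hp (h ▸ Finset.mem_erase.mpr ⟨hx, hxS⟩)
        · exact hp (h ▸ Finset.mem_erase.mpr ⟨hy, hyS⟩)
      · exact sparse_add hs hi hQ hx hy (fun T h1 h2 h3 h4 => hf ⟨T, h1, h2, h3, h4⟩)
    -- the neighbours of `v`
    obtain ⟨l, hl1, hl2⟩ := exists_list_of_sum S _ (fun q => m v q)
      (fun q hq => by rw [hs]; exact hsupp q v hq) rfl
    have hmemS : ∀ q, 0 < m v q → q ∈ S := by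
      intro q hq
      by_contra hqS
      rw [hs, hsupp q v hqS] at hq
      exact lt_irrefl 0 hq
    match l, hl1, hl2 with
    | [], _, hl2 =>
      obtain ⟨B, hB⟩ := hIH0
      refine attach_of_le_two (m := m) v B (fun _ => none) hB hv0 hm0 ?_ (fun q => hs q v) (hi v)
        ?_ ?_
      · intro q
        have := hl2 q
        simpa using this
      · intro c x q h
        exact absurd h (by simp)
      · simp
    | [x], _, hl2 =>
      obtain ⟨B, hB⟩ := hIH0
      have hmv : ∀ q, m v q = if q = x then 1 else 0 := by
        intro q; have := hl2 q; simpa using this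
      refine attach_of_le_two (m := m) v B (fun c => if c = 0 then some x else none) hB hv0 hm0 ?_
        (fun q => hs q v) (hi v) ?_ ?_
      · intro q
        rw [hmv q]
        by_cases h : q = x
        · have h1 : Finset.univ.filter (fun c : Fin 4 =>
            (if c = 0 then some x else none) = some q) = {0} := by
            ext c
            by_cases hc : c = 0
            · simp [hc, h]
            · simp [hc]
          rw [h1, if_pos h]; simp
        · have h1 : Finset.univ.filter (fun c : Fin 4 =>
            (if c = 0 then some x else none) = some q) = ∅ := by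
            ext c
            by_cases hc : c = 0
            · simp [hc]
              exact fun h' => h h'.symm
            · simp [hc]
          rw [h1, if_neg h]; simp
      · intro c w q hw hpos _
        have hqx : q = x := by
          by_contra hne
          rw [hmv q, if_neg hne] at hpos
          exact lt_irrefl 0 hpos
        by_cases hc : c = 0
        · simp only [hc, if_true, Option.some.injEq] at hw
          rw [hqx, hw]
        · simp [hc] at hw
      · have h1 : Finset.univ.filter (fun c : Fin 4 =>
          (if c = 0 then some x else none) ≠ none) ⊆ {0} := by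
          intro c hc
          rw [Finset.mem_filter] at hc
          rw [Finset.mem_singleton]
          by_contra hne
          simp [hne] at hc
        exact (Finset.card_le_card h1).trans (by simp)
    | [x, y], _, hl2 =>
      obtain ⟨B, hB⟩ := hIH0
      have hmv : ∀ q, m v q = (if q = x then 1 else 0) + (if q = y then 1 else 0) := by
        intro q; have := hl2 q; simpa using this
      by_cases hxy : x = y
      · exact attach_two v B hB hv0 hm0 x y hmv (fun q => hs q v) (hi v) 0 1 (by decide)
          (fun _ => hxy.symm) (fun _ => hxy)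
      · have hK := card_Kc_le hB.cnt hxy
        have h2 : 1 < (Finset.univ \ Kc B x y).card := by
          rw [Finset.card_sdiff_of_subset (Finset.subset_univ _)]
          simp
          omega
        obtain ⟨c₁, hc1, c₂, hc2, hne⟩ := Finset.one_lt_card.mp h2
        rw [Finset.mem_sdiff, mem_Kc] at hc1 hc2
        exact attach_two v B hB hv0 hm0 x y hmv (fun q => hs q v) (hi v) c₁ c₂ hne
          (fun h => absurd h hc1.2) (fun h => absurd h.symm hc2.2)
    | [x, y, z], _, hl2 =>
      have hmv : ∀ q, m v q = (if q = x then 1 else 0) + (if q = y then 1 else 0) +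
          (if q = z then 1 else 0) := by
        intro q; have := hl2 q
        rw [this]
        simp
        ring
      have st : Step m (delv m v) v x y z := ⟨hv0, hm0, hmv, fun q => hs q v, hi v⟩
      -- the double edge case
      have D1 : ∀ a b, a ≠ b → Step m (delv m v) v a a b → ∃ H, Good m H := by
        intro a b hab sta
        obtain ⟨hav, -, hbv⟩ := sta.ne
        have hma : m v a = 2 := by
          rw [sta.hmv a, if_pos rfl, if_neg hab]
        have hmb : m v b = 1 := by
          rw [sta.hmv b, if_neg hab.symm, if_pos rfl]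
        have hf : ¬ NF m v a b := by
          rintro ⟨T, h1, h2, h3, h4⟩
          have h5 := deg_le_of_ET hs hi hQ h3 h4
          have h6 := two_term_le (f := fun q => m v q) hab h1 h2
          simp only [hma, hmb] at h6
          omega
        obtain ⟨B, hB⟩ := hIH1 a b hab hav hbv (hmemS a (by omega)) (hmemS b (by omega)) hf
        have h1 := mult_le_one hs hi hQ hab hav hbv hf
        have hd : delv m v a b = m a b := delv_of_ne m hav hbv
        have hd' : delv m v b a = m a b := by rw [delv_symm hs, hd]
        by_cases h0 : m a b = 0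
        · exact step_D1_merge hab sta (fun p q => rfl) (by rw [hd, h0]) (by rw [hd', h0]) hB
        · exact step_D1_adj sta (fun p q => rfl) (by rw [hd]; omega) hB
      by_cases hxy : x = y
      · by_cases hxz : x = z
        · exfalso
          have h1 : m v x = 3 := by
            rw [hmv x, if_pos rfl, if_pos hxy, if_pos hxz]
          have h2 := mult_le_two hs hi hQ st.ne.1.symm
          omega
        · subst hxy
          exact D1 x z hxz st
      · by_cases hxz : x = z
        · subst hxz
          exact D1 x y hxy st.swap'
        · by_cases hyz : y = z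
          · subst hyz
            exact D1 y x (fun h => hxy h.symm) st.swap.swap'
          · -- three distinct neighbours
            obtain ⟨hxv, hyv, hzv⟩ := st.ne
            have hx1 : m v x = 1 := by rw [hmv x, if_pos rfl, if_neg hxy, if_neg hxz]
            have hy1 : m v y = 1 := by
              rw [hmv y, if_neg (fun h => hxy h.symm), if_pos rfl, if_neg hyz]
            have hz1 : m v z = 1 := by
              rw [hmv z, if_neg (fun h => hxz h.symm), if_neg (fun h => hyz h.symm), if_pos rfl]
            have htri : Tri m v x y z := ⟨hs, hi, hQ, hxy, hxz, hyz, hx1, hy1, hz1⟩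
            have hxS := hmemS x (by omega)
            have hyS := hmemS y (by omega)
            have hzS := hmemS z (by omega)
            -- a free non-adjacent pair
            have free : ∀ a b c, a ≠ b → a ≠ c → b ≠ c → a ≠ v → b ≠ v → a ∈ S → b ∈ S →
                Step m (delv m v) v a b c → ¬ NF m v a b → m a b = 0 → ∃ H, Good m H := by
              intro a b c hab hac hbc hav hbv haS hbS sta hf h0
              obtain ⟨B, hB⟩ := hIH1 a b hab hav hbv haS hbS hf
              have hd : delv m v a b = m a b := delv_of_ne m hav hbv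
              have hd' : delv m v b a = m a b := by rw [delv_symm hs, hd]
              exact step_free hab hac hbc sta (fun p q => rfl) (by rw [hd, h0]) (by rw [hd', h0]) hB
            rcases htri.dichotomy with ⟨h1, h2⟩ | ⟨h1, h2⟩ | ⟨h1, h2⟩ | ⟨h1, h2, h3, h4, h5, h6⟩
            · exact free x y z hxy hxz hyz hxv hyv hxS hyS st h1 h2
            · exact free y z x hyz (fun h => hxy h.symm) (fun h => hxz h.symm) hyv hzv hyS hzS
                st.swap.swap' h1 h2
            · exact free x z y hxz hxy (fun h => hyz h.symm) hxv hzv hxS hzS st.swap' h1 h2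
            · obtain ⟨B, hB⟩ := hIH1 x y hxy hxv hyv hxS hyS h1
              have a1 := mult_le_one hs hi hQ hxy hxv hyv h1
              have a2 := mult_le_one hs hi hQ hyz hyv hzv h2
              have a3 := mult_le_one hs hi hQ hxz hxv hzv h3
              refine step_tri hxy hxz hyz st (fun p q => rfl) ?_ ?_ ?_ hB
              · rw [delv_of_ne m hxv hyv]; omega
              · rw [delv_of_ne m hyv hzv]; omega
              · rw [delv_of_ne m hxv hzv]; omega
    | _ :: _ :: _ :: _ :: _, hl1, _ =>
      exfalso
      simp only [List.length_cons] at hl1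
      omega

/-- the sum of the degrees inside `S` of a graph with a woody colouring in `a` colours -/
theorem sum_le_of_woody [Fintype V] (G : SimpleGraph V) (a : ℕ) (c : Sym2 V → ℕ)
    (hc : ∀ e ∈ G.edgeSet, c e < a) (hw : Woody G c) (S : Finset V) (hS : S.Nonempty) :
    ∑ v ∈ S, (S.filter (fun y => G.Adj v y)).card ≤ a * (2 * (S.card - 1)) := by
  have h2 : ∀ v ∈ S, (S.filter (fun y => G.Adj v y)).card =
      ∑ i ∈ Finset.range a, (S.filter (fun y => (cls G c i).Adj v y)).card := by
    intro v _
    rw [← Finset.card_biUnion]
    · congr 1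
      ext y
      simp only [Finset.mem_filter, Finset.mem_biUnion, Finset.mem_range, cls_adj]
      constructor
      · rintro ⟨hy, hadj⟩
        exact ⟨c s(v, y), hc _ hadj, hy, hadj, rfl⟩
      · rintro ⟨i, _, hy, hadj, _⟩
        exact ⟨hy, hadj⟩
    · intro i _ j _ hij
      rw [Function.onFun, Finset.disjoint_left]
      intro y hy1 hy2
      rw [Finset.mem_filter, cls_adj] at hy1 hy2
      exact hij (hy1.2.2.symm.trans hy2.2.2)
  rw [Finset.sum_congr rfl h2, Finset.sum_comm]
  calc ∑ i ∈ Finset.range a, ∑ v ∈ S, (S.filter (fun y => (cls G c i).Adj v y)).card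
      ≤ ∑ _i ∈ Finset.range a, 2 * (S.card - 1) :=
        Finset.sum_le_sum (fun i _ => sum_degree_le_of_isAcyclic _ (hw.isAcyclic_cls i) S hS)
    _ = a * (2 * (S.card - 1)) := by rw [Finset.sum_const, Finset.card_range, smul_eq_mul]

/-- A finite simple graph whose vertex subsets `T` span at most `2 (|T| - 1)` edges has a strongly
woody colouring with four colours. -/
theorem exists_four [Fintype V] (G : SimpleGraph V)
    (hG : ∀ S : Finset V, S.Nonempty →
      ∑ v ∈ S, (S.filter (fun y => G.Adj v y)).card ≤ 4 * (S.card - 1)) :
    ∃ c : Sym2 V → ℕ, (∀ e ∈ G.edgeSet, c e < 4) ∧ StronglyWoody G c := by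
  set m : V → V → ℕ := fun p q => if G.Adj p q then 1 else 0 with hm
  have hQ : Sparse m := by
    intro T hT
    have h1 := hG T hT
    have h2 : wt m T = ∑ v ∈ T, (T.filter (fun y => G.Adj v y)).card := by
      unfold wt
      refine Finset.sum_congr rfl (fun p _ => ?_)
      rw [Finset.card_filter]
    have h3 : 1 ≤ T.card := Finset.card_pos.mpr hT
    omega
  obtain ⟨H, hH⟩ := exists_good (Finset.univ : Finset V).card Finset.univ m rfl
    (fun p q => by simp only [hm, SimpleGraph.adj_comm]) (fun p => by simp [hm])
    (fun p q hp => absurd (Finset.mem_univ p) hp) hQ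
  have hHG : ∀ c x y, (H c).Adj x y → G.Adj x y := by
    intro c x y h
    have h1 := hH.pos h
    simp only [hm] at h1
    by_contra hcon
    rw [if_neg hcon] at h1
    exact lt_irrefl 0 h1
  have huniq : ∀ x y c c', (H c).Adj x y → (H c').Adj x y → c = c' := by
    intro x y c c' h1 h2
    have h3 := hH.num x y
    have h4 : m x y = 1 := by simp only [hm]; rw [if_pos (hHG c x y h1)]
    rw [h4] at h3
    exact Finset.card_le_one.mp h3.le c (by simpa using h1) c' (by simpa using h2)
  let col : Sym2 V → ℕ := fun e => if h : ∃ c : Fin 4, e ∈ (H c).edgeSet then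
    (h.choose : ℕ) else 0
  have hcol : ∀ x y (c : Fin 4), (H c).Adj x y → col s(x, y) = c := by
    intro x y c hc
    have hex : ∃ c : Fin 4, s(x, y) ∈ (H c).edgeSet := ⟨c, hc⟩
    simp only [col, dif_pos hex]
    have h1 : (H hex.choose).Adj x y := hex.choose_spec
    rw [huniq x y _ _ h1 hc]
  have hcov : ∀ x y, G.Adj x y → ∃ c, (H c).Adj x y := by
    intro x y h
    exact hH.exists_adj (by simp only [hm]; rw [if_pos h]; exact Nat.one_pos)
  have hcls : ∀ (i : ℕ) x y, (cls G col i).Adj x y ↔ ∃ c : Fin 4, (c : ℕ) = i ∧ (H c).Adj x y := by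
    intro i x y
    rw [cls_adj]
    constructor
    · rintro ⟨h1, h2⟩
      obtain ⟨c, hc⟩ := hcov x y h1
      exact ⟨c, by rw [← h2, hcol x y c hc], hc⟩
    · rintro ⟨c, hc, h1⟩
      exact ⟨hHG c x y h1, by rw [hcol x y c h1, hc]⟩
  have hclsle : ∀ (i : ℕ) (hi : i < 4), cls G col i ≤ H ⟨i, hi⟩ := by
    intro i hi x y h
    obtain ⟨c, hc, h1⟩ := (hcls i x y).mp h
    have : c = ⟨i, hi⟩ := Fin.ext hc
    rw [← this]; exact h1
  have hclsge : ∀ (i : ℕ), 4 ≤ i → ∀ x y, ¬ (cls G col i).Adj x y := by
    intro i hi x y h
    obtain ⟨c, hc, -⟩ := (hcls i x y).mp h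
    have := c.2
    omega
  refine ⟨col, ?_, ?_⟩
  · intro e he
    induction e using Sym2.ind with
    | h x y =>
      obtain ⟨c, hc⟩ := hcov x y he
      rw [hcol x y c hc]
      exact c.2
  · refine stronglyWoody_of_flat G col ?_ ?_
    · intro i
      by_cases hi : i < 4
      · exact (hH.ac ⟨i, hi⟩).anti (hclsle i hi)
      · rw [SimpleGraph.isAcyclic_iff_forall_adj_isBridge]
        intro x y h
        exact absurd h (hclsge i (by omega) x y)
    · intro i x y hxy hr
      by_cases hi : i < 4
      · have h1 : (H ⟨i, hi⟩).Adj x y := by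
          refine hH.flat _ x y ?_ (hr.mono (hclsle i hi))
          simp only [hm]; rw [if_pos hxy]; exact Nat.one_pos
        exact (hcls i x y).mpr ⟨⟨i, hi⟩, rfl, h1⟩
      · exact absurd (eq_of_reachable_isolated (hclsge i (by omega) x) hr) hxy.ne

/-- `zeta G ≤ 2 arb G` for graphs of arboricity at most two. -/
theorem zeta_le_two_arb [Fintype V] (G : SimpleGraph V) (ha : arb G ≤ 2) :
    zeta G ≤ 2 * arb G := by
  obtain ⟨c, hc, hw⟩ := exists_woody_arb G
  have h3 : arb G = 0 ∨ arb G = 1 ∨ arb G = 2 := by omega
  rcases h3 with h | h | h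
  · have := zeta_le_linear G
    omega
  · have := zeta_le_linear G
    omega
  · obtain ⟨d, hd, hsw⟩ := exists_four G (fun S hS => by
      have h1 := sum_le_of_woody G (arb G) c hc hw S hS
      rw [h] at h1
      omega)
    have h4 := zeta_le hd hsw
    omega

end Pool.Agent.Helper83.SA
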