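import Pool.Agent.Helper83.SA.Ext

/-!
# Strong arboricity (MP_96bd24_co): edge counts of multigraphs
-/

namespace Pool.Agent.Helper83.SA

open Finset
open scoped Classical

variable {V : Type*}

/-- Twice the number of edges inside `T` of the multigraph with multiplicities `m`. -/
def wt (m : V → V → ℕ) (T : Finset V) : ℕ := ∑ p ∈ T, ∑ q ∈ T, m p q

/-- The edge condition of graphs of arboricity at most two. -/
def Sparse (m : V → V → ℕ) : Prop := ∀ T : Finset V, T.Nonempty → wt m T + 4 ≤ 4 * T.card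

/-- edge-tight sets -/
def ET (m : V → V → ℕ) (T : Finset V) : Prop := wt m T + 4 = 4 * T.card

/-- one edge between `x` and `y` -/
noncomputable def dl (x y p q : V) : ℕ := if (p = x ∧ q = y) ∨ (p = y ∧ q = x) then 1 else 0

theorem wt_insert {m : V → V → ℕ} (hs : ∀ p q, m p q = m q p) (hi : ∀ p, m p p = 0) {v : V}
    {T : Finset V} (hv : v ∉ T) : wt m (insert v T) = wt m T + 2 * ∑ q ∈ T, m v q := by
  unfold wt
  rw [Finset.sum_insert hv, Finset.sum_insert hv, hi, zero_add]
  have h1 : ∑ p ∈ T, ∑ q ∈ insert v T, m p q = ∑ p ∈ T, (m v p + ∑ q ∈ T, m p q) := by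
    refine Finset.sum_congr rfl (fun p _ => ?_)
    rw [Finset.sum_insert hv, hs p v]
  rw [h1, Finset.sum_add_distrib]
  ring

theorem wt_even {m : V → V → ℕ} (hs : ∀ p q, m p q = m q p) (hi : ∀ p, m p p = 0)
    (T : Finset V) : ∃ k, wt m T = 2 * k := by
  induction T using Finset.induction_on with
  | empty => exact ⟨0, by simp [wt]⟩
  | insert v T hv ih =>
    obtain ⟨k, hk⟩ := ih
    refine ⟨k + ∑ q ∈ T, m v q, ?_⟩
    rw [wt_insert hs hi hv, hk]
    ring

theorem wt_eq_product (m : V → V → ℕ) (T : Finset V) :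
    wt m T = ∑ p ∈ T ×ˢ T, m p.1 p.2 := by
  unfold wt
  rw [Finset.sum_product]

theorem wt_mono {m m' : V → V → ℕ} (h : ∀ p q, m p q ≤ m' p q) (T : Finset V) :
    wt m T ≤ wt m' T :=
  Finset.sum_le_sum (fun p _ => Finset.sum_le_sum (fun q _ => h p q))

theorem wt_union (m : V → V → ℕ) (T₁ T₂ : Finset V) :
    wt m T₁ + wt m T₂ ≤ wt m (T₁ ∪ T₂) + wt m (T₁ ∩ T₂) := by
  rw [wt_eq_product, wt_eq_product, wt_eq_product, wt_eq_product]
  rw [← Finset.sum_union_inter]
  refine Nat.add_le_add ?_ ?_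
  · refine Finset.sum_le_sum_of_subset ?_
    intro p hp
    rw [Finset.mem_union, Finset.mem_product, Finset.mem_product] at hp
    rw [Finset.mem_product, Finset.mem_union, Finset.mem_union]
    rcases hp with ⟨h1, h2⟩ | ⟨h1, h2⟩
    · exact ⟨Or.inl h1, Or.inl h2⟩
    · exact ⟨Or.inr h1, Or.inr h2⟩
  · refine Finset.sum_le_sum_of_subset ?_
    intro p hp
    rw [Finset.mem_inter, Finset.mem_product, Finset.mem_product] at hp
    rw [Finset.mem_product, Finset.mem_inter, Finset.mem_inter]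
    exact ⟨⟨hp.1.1, hp.2.1⟩, ⟨hp.1.2, hp.2.2⟩⟩

/-- deleting a vertex -/
noncomputable def delv (m : V → V → ℕ) (v p q : V) : ℕ := if p = v ∨ q = v then 0 else m p q

theorem delv_le (m : V → V → ℕ) (v p q : V) : delv m v p q ≤ m p q := by
  unfold delv
  split_ifs
  · exact Nat.zero_le _
  · exact le_rfl

theorem delv_of_ne (m : V → V → ℕ) {v p q : V} (hp : p ≠ v) (hq : q ≠ v) :
    delv m v p q = m p q := by
  unfold delv
  rw [if_neg]
  rintro (h | h)
  · exact hp h
  · exact hq h

theorem wt_delv_of_notMem (m : V → V → ℕ) {v : V} {T : Finset V} (hv : v ∉ T) :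
    wt (delv m v) T = wt m T := by
  unfold wt
  refine Finset.sum_congr rfl (fun p hp => Finset.sum_congr rfl (fun q hq => ?_))
  exact delv_of_ne m (fun h => hv (h ▸ hp)) (fun h => hv (h ▸ hq))

theorem delv_symm {m : V → V → ℕ} (hs : ∀ p q, m p q = m q p) (v p q : V) :
    delv m v p q = delv m v q p := by
  unfold delv
  rw [hs p q]
  congr 1
  exact propext or_comm

theorem delv_irr {m : V → V → ℕ} (hi : ∀ p, m p p = 0) (v p : V) : delv m v p p = 0 := by
  unfold delv
  split_ifs
  · rfl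
  · exact hi p

theorem wt_delv_erase {m : V → V → ℕ} (hs : ∀ p q, m p q = m q p) (hi : ∀ p, m p p = 0) (v : V)
    (T : Finset V) : wt (delv m v) T = wt m (T.erase v) := by
  by_cases hv : v ∈ T
  · have h1 : T = insert v (T.erase v) := (Finset.insert_erase hv).symm
    rw [← wt_delv_of_notMem m (Finset.notMem_erase v T)]
    conv_lhs => rw [h1]
    rw [wt_insert (delv_symm hs v) (delv_irr hi v) (Finset.notMem_erase v T)]
    have h2 : ∑ q ∈ T.erase v, delv m v v q = 0 := by
      refine Finset.sum_eq_zero (fun q _ => ?_)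
      unfold delv
      rw [if_pos (Or.inl rfl)]
    rw [h2]
    simp
  · rw [Finset.erase_eq_of_notMem hv, wt_delv_of_notMem m hv]

theorem dl_symm (x y p q : V) : dl x y p q = dl x y q p := by
  unfold dl
  congr 1
  refine propext ⟨?_, ?_⟩
  · rintro (⟨h1, h2⟩ | ⟨h1, h2⟩)
    · exact Or.inr ⟨h2, h1⟩
    · exact Or.inl ⟨h2, h1⟩
  · rintro (⟨h1, h2⟩ | ⟨h1, h2⟩)
    · exact Or.inr ⟨h2, h1⟩
    · exact Or.inl ⟨h2, h1⟩

theorem dl_irr {x y : V} (hxy : x ≠ y) (p : V) : dl x y p p = 0 := by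
  unfold dl
  rw [if_neg]
  rintro (⟨h1, h2⟩ | ⟨h1, h2⟩)
  · exact hxy (h1.symm.trans h2)
  · exact hxy (h2.symm.trans h1)

theorem wt_add (m m' : V → V → ℕ) (T : Finset V) :
    wt (fun p q => m p q + m' p q) T = wt m T + wt m' T := by
  unfold wt
  rw [← Finset.sum_add_distrib]
  refine Finset.sum_congr rfl (fun p _ => ?_)
  rw [Finset.sum_add_distrib]

theorem wt_dl_le {x y : V} (T : Finset V) : wt (dl x y) T ≤ 2 := by
  have h1 : wt (dl x y) T ≤ ∑ p ∈ T, ∑ q ∈ T, ((if p = x then (if q = y then 1 else 0) else 0) +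
      (if p = y then (if q = x then 1 else 0) else 0)) := by
    unfold wt
    refine Finset.sum_le_sum (fun p _ => Finset.sum_le_sum (fun q _ => ?_))
    unfold dl
    by_cases h : (p = x ∧ q = y) ∨ (p = y ∧ q = x)
    · rw [if_pos h]
      rcases h with ⟨h1, h2⟩ | ⟨h1, h2⟩
      · rw [if_pos h1, if_pos h2]; omega
      · rw [if_pos h1, if_pos h2]; omega
    · rw [if_neg h]; exact Nat.zero_le _
  refine h1.trans ?_
  have h2 : ∀ a b : V, ∑ p ∈ T, ∑ q ∈ T, (if p = a then (if q = b then 1 else 0) else 0) ≤ 1 := by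
    intro a b
    calc ∑ p ∈ T, ∑ q ∈ T, (if p = a then (if q = b then 1 else 0) else 0)
        = ∑ p ∈ T, (if p = a then (∑ q ∈ T, if q = b then 1 else 0) else 0) := by
          refine Finset.sum_congr rfl (fun p _ => ?_)
          by_cases h : p = a
          · simp only [h, if_true]
          · simp only [h, if_false, Finset.sum_const_zero]
      _ ≤ ∑ p ∈ T, (if p = a then 1 else 0) := by
          refine Finset.sum_le_sum (fun p _ => ?_)
          by_cases h : p = a
          · simp only [h, if_true]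
            rw [Finset.sum_ite_eq']
            split_ifs <;> omega
          · simp only [h, if_false]; exact le_rfl
      _ ≤ 1 := by
          rw [Finset.sum_ite_eq']
          split_ifs <;> omega
  simp_rw [Finset.sum_add_distrib]
  have h3 := h2 x y
  have h4 := h2 y x
  omega

theorem wt_dl_zero {x y : V} {T : Finset V} (h : ¬ (x ∈ T ∧ y ∈ T)) : wt (dl x y) T = 0 := by
  unfold wt
  refine Finset.sum_eq_zero (fun p hp => Finset.sum_eq_zero (fun q hq => ?_))
  unfold dl
  rw [if_neg]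
  rintro (⟨h1, h2⟩ | ⟨h1, h2⟩)
  · exact h ⟨h1 ▸ hp, h2 ▸ hq⟩
  · exact h ⟨h2 ▸ hq, h1 ▸ hp⟩

/-- If no edge-tight set avoiding `v` contains both `x` and `y`, then the edge `x y` can be added
to the multigraph without `v`. -/
theorem sparse_add {m : V → V → ℕ} (hs : ∀ p q, m p q = m q p) (hi : ∀ p, m p p = 0)
    (hQ : Sparse m) {v x y : V} (hx : x ≠ v) (hy : y ≠ v)
    (hfree : ∀ T : Finset V, x ∈ T → y ∈ T → v ∉ T → ¬ ET m T) :
    Sparse (fun p q => delv m v p q + dl x y p q) := by
  intro T hT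
  rw [wt_add, wt_delv_erase hs hi]
  by_cases h : x ∈ T ∧ y ∈ T
  · have hx' : x ∈ T.erase v := Finset.mem_erase.mpr ⟨hx, h.1⟩
    have hy' : y ∈ T.erase v := Finset.mem_erase.mpr ⟨hy, h.2⟩
    have h1 := hfree (T.erase v) hx' hy' (Finset.notMem_erase v T)
    have h2 := hQ (T.erase v) ⟨x, hx'⟩
    have h3 := wt_dl_le (x := x) (y := y) T
    have h4 : (T.erase v).card ≤ T.card := Finset.card_le_card (Finset.erase_subset _ _)
    obtain ⟨k, hk⟩ := wt_even hs hi (T.erase v)
    unfold ET at h1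
    omega
  · rw [wt_dl_zero h, add_zero]
    rcases (T.erase v).eq_empty_or_nonempty with h0 | h0
    · rw [h0]
      have : 1 ≤ T.card := Finset.card_pos.mpr hT
      simp only [wt, Finset.sum_empty]
      omega
    · have h2 := hQ (T.erase v) h0
      have h4 : (T.erase v).card ≤ T.card := Finset.card_le_card (Finset.erase_subset _ _)
      omega

theorem sparse_delv {m : V → V → ℕ} (hQ : Sparse m) (v : V) : Sparse (delv m v) := by
  intro T hT
  exact (Nat.add_le_add_right (wt_mono (delv_le m v) T) 4).trans (hQ T hT)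

/-- the vertex `v` sends at most two edges to an edge-tight set -/
theorem deg_le_of_ET {m : V → V → ℕ} (hs : ∀ p q, m p q = m q p) (hi : ∀ p, m p p = 0)
    (hQ : Sparse m) {v : V} {T : Finset V} (hv : v ∉ T) (hT : ET m T) :
    ∑ q ∈ T, m v q ≤ 2 := by
  have h1 := hQ (insert v T) (Finset.insert_nonempty _ _)
  rw [wt_insert hs hi hv, Finset.card_insert_of_notMem hv] at h1
  unfold ET at hT
  omega

theorem ET.union {m : V → V → ℕ} (hQ : Sparse m) {T₁ T₂ : Finset V} (h1 : ET m T₁)
    (h2 : ET m T₂) (hne : (T₁ ∩ T₂).Nonempty) : ET m (T₁ ∪ T₂) := by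
  have h3 := wt_union m T₁ T₂
  have h4 := hQ _ hne
  have h5 := hQ (T₁ ∪ T₂) (hne.mono (Finset.inter_subset_left.trans Finset.subset_union_left))
  have h6 := Finset.card_union_add_card_inter T₁ T₂
  unfold ET at *
  omega

theorem two_term_le {f : V → ℕ} {T : Finset V} {x y : V} (hxy : x ≠ y) (hx : x ∈ T)
    (hy : y ∈ T) : f x + f y ≤ ∑ q ∈ T, f q := by
  have h1 : ∑ q ∈ ({x, y} : Finset V), f q ≤ ∑ q ∈ T, f q := by
    refine Finset.sum_le_sum_of_subset ?_
    intro z hz
    rw [Finset.mem_insert, Finset.mem_singleton] at hz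
    rcases hz with h | h
    · rw [h]; exact hx
    · rw [h]; exact hy
  rwa [Finset.sum_pair hxy] at h1

theorem three_term_le {f : V → ℕ} {T : Finset V} {x y z : V} (hxy : x ≠ y) (hxz : x ≠ z)
    (hyz : y ≠ z) (hx : x ∈ T) (hy : y ∈ T) (hz : z ∈ T) :
    f x + f y + f z ≤ ∑ q ∈ T, f q := by
  have h1 : ∑ q ∈ ({x, y, z} : Finset V), f q ≤ ∑ q ∈ T, f q := by
    refine Finset.sum_le_sum_of_subset ?_
    intro u hu
    simp only [Finset.mem_insert, Finset.mem_singleton] at hu
    rcases hu with h | h | h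
    · rw [h]; exact hx
    · rw [h]; exact hy
    · rw [h]; exact hz
  have h2 : ∑ q ∈ ({x, y, z} : Finset V), f q = f x + (f y + f z) := by
    rw [Finset.sum_insert, Finset.sum_pair hyz]
    simp [hxy, hxz]
  omega

/-- The pair `a, b` is contained in an edge-tight set avoiding `v`. -/
def NF (m : V → V → ℕ) (v a b : V) : Prop := ∃ T : Finset V, a ∈ T ∧ b ∈ T ∧ v ∉ T ∧ ET m T

theorem NF.symm {m : V → V → ℕ} {v a b : V} (h : NF m v a b) : NF m v b a := by
  obtain ⟨T, h1, h2, h3, h4⟩ := h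
  exact ⟨T, h2, h1, h3, h4⟩

/-- A structure collecting the facts about a vertex `v` with three distinct neighbours. -/
structure Tri (m : V → V → ℕ) (v x y z : V) : Prop where
  hs : ∀ p q, m p q = m q p
  hi : ∀ p, m p p = 0
  hQ : Sparse m
  hxy : x ≠ y
  hxz : x ≠ z
  hyz : y ≠ z
  hx : m v x = 1
  hy : m v y = 1
  hz : m v z = 1

theorem Tri.no_three {m : V → V → ℕ} {v x y z : V} (h : Tri m v x y z) {T : Finset V}
    (hT : ET m T) (hv : v ∉ T) (hx : x ∈ T) (hy : y ∈ T) (hz : z ∈ T) : False := by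
  have h1 := deg_le_of_ET h.hs h.hi h.hQ hv hT
  have h2 := three_term_le (f := fun q => m v q) h.hxy h.hxz h.hyz hx hy hz
  simp only [h.hx, h.hy, h.hz] at h2
  omega

theorem Tri.nf_two {m : V → V → ℕ} {v x y z : V} (h : Tri m v x y z) (h1 : NF m v x y)
    (h2 : NF m v y z) : False := by
  obtain ⟨T₁, a1, a2, a3, a4⟩ := h1
  obtain ⟨T₂, b1, b2, b3, b4⟩ := h2
  have h3 := a4.union h.hQ b4 ⟨y, Finset.mem_inter.mpr ⟨a2, b1⟩⟩
  refine h.no_three h3 ?_ (Finset.mem_union_left _ a1) (Finset.mem_union_left _ a2)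
    (Finset.mem_union_right _ b2)
  rw [Finset.mem_union]
  rintro (h | h)
  · exact a3 h
  · exact b3 h

theorem Tri.nf_tri {m : V → V → ℕ} {v x y z : V} (h : Tri m v x y z) (h1 : NF m v x y)
    (h2 : 0 < m x z) (h3 : 0 < m y z) : False := by
  obtain ⟨T, a1, a2, a3, a4⟩ := h1
  by_cases hz : z ∈ T
  · exact h.no_three a4 a3 a1 a2 hz
  have hzv : z ≠ v := by
    intro hzv
    have := h.hz
    rw [hzv, h.hi] at this
    omega
  have h4 := wt_insert h.hs h.hi hz
  have h5 := two_term_le (f := fun q => m z q) h.hxy a1 a2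
  have h6 : ET m (insert z T) := by
    have h7 := h.hQ (insert z T) (Finset.insert_nonempty _ _)
    rw [h.hs z x, h.hs z y] at h5
    unfold ET at *
    rw [Finset.card_insert_of_notMem hz] at *
    omega
  refine h.no_three h6 ?_ (Finset.mem_insert_of_mem a1) (Finset.mem_insert_of_mem a2)
    (Finset.mem_insert_self _ _)
  rw [Finset.mem_insert]
  rintro (h' | h')
  · exact hzv h'.symm
  · exact a3 h'

theorem Tri.rot {m : V → V → ℕ} {v x y z : V} (h : Tri m v x y z) : Tri m v y z x :=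
  ⟨h.hs, h.hi, h.hQ, h.hyz, h.hxy.symm, h.hxz.symm, h.hy, h.hz, h.hx⟩

theorem Tri.swap {m : V → V → ℕ} {v x y z : V} (h : Tri m v x y z) : Tri m v y x z :=
  ⟨h.hs, h.hi, h.hQ, h.hxy.symm, h.hyz, h.hxz, h.hy, h.hx, h.hz⟩

/-- Either some pair is free and not joined, or all pairs are free and joined. -/
theorem Tri.dichotomy {m : V → V → ℕ} {v x y z : V} (h : Tri m v x y z) :
    (¬ NF m v x y ∧ m x y = 0) ∨ (¬ NF m v y z ∧ m y z = 0) ∨ (¬ NF m v x z ∧ m x z = 0) ∨
    (¬ NF m v x y ∧ ¬ NF m v y z ∧ ¬ NF m v x z ∧ 0 < m x y ∧ 0 < m y z ∧ 0 < m x z) := by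
  by_cases a : NF m v x y
  · -- then the other two are free
    have b1 : ¬ NF m v y z := fun hb => h.nf_two a hb
    have b2 : ¬ NF m v x z := fun hb => h.swap.nf_two a.symm hb
    by_cases c1 : m y z = 0
    · exact Or.inr (Or.inl ⟨b1, c1⟩)
    · by_cases c2 : m x z = 0
      · exact Or.inr (Or.inr (Or.inl ⟨b2, c2⟩))
      · exact absurd (h.nf_tri a (Nat.pos_of_ne_zero c2) (Nat.pos_of_ne_zero c1)) id
  · by_cases a0 : m x y = 0
    · exact Or.inl ⟨a, a0⟩
    · by_cases b : NF m v y z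
      · have b2 : ¬ NF m v x z := fun hb => h.rot.nf_two b hb.symm
        by_cases c2 : m x z = 0
        · exact Or.inr (Or.inr (Or.inl ⟨b2, c2⟩))
        · refine absurd (h.rot.nf_tri b ?_ ?_) id
          · rw [h.hs]; exact Nat.pos_of_ne_zero a0
          · rw [h.hs]; exact Nat.pos_of_ne_zero c2
      · by_cases b0 : m y z = 0
        · exact Or.inr (Or.inl ⟨b, b0⟩)
        · by_cases c : NF m v x z
          · refine absurd (h.rot.rot.nf_tri c.symm ?_ ?_) id
            · rw [h.hs]; exact Nat.pos_of_ne_zero b0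
            · exact Nat.pos_of_ne_zero a0
          · by_cases c0 : m x z = 0
            · exact Or.inr (Or.inr (Or.inl ⟨c, c0⟩))
            · exact Or.inr (Or.inr (Or.inr ⟨a, b, c, Nat.pos_of_ne_zero a0,
                Nat.pos_of_ne_zero b0, Nat.pos_of_ne_zero c0⟩))

/-- multiplicities are at most two, and at most one for free pairs -/
theorem mult_le_two {m : V → V → ℕ} (hs : ∀ p q, m p q = m q p) (hi : ∀ p, m p p = 0)
    (hQ : Sparse m) {x y : V} (hxy : x ≠ y) : m x y ≤ 2 := by
  have h1 := hQ {x, y} (Finset.insert_nonempty _ _)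
  have h2 := wt_insert hs hi (v := x) (T := {y}) (by simpa using hxy)
  rw [Finset.card_pair hxy] at h1
  have h3 : wt m {y} = 0 := by simp [wt, hi]
  rw [h3, Finset.sum_singleton] at h2
  omega

theorem mult_le_one {m : V → V → ℕ} (hs : ∀ p q, m p q = m q p) (hi : ∀ p, m p p = 0)
    (hQ : Sparse m) {v x y : V} (hxy : x ≠ y) (hx : x ≠ v) (hy : y ≠ v) (hf : ¬ NF m v x y) :
    m x y ≤ 1 := by
  have h0 := mult_le_two hs hi hQ hxy
  by_contra hcon
  have h4 : m x y = 2 := by omega
  apply hf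
  refine ⟨{x, y}, by simp, by simp, ?_, ?_⟩
  · rw [Finset.mem_insert, Finset.mem_singleton]
    rintro (h | h)
    · exact hx h.symm
    · exact hy h.symm
  · have h2 := wt_insert hs hi (v := x) (T := {y}) (by simpa using hxy)
    have h3 : wt m {y} = 0 := by simp [wt, hi]
    rw [h3, Finset.sum_singleton, h4] at h2
    unfold ET
    rw [Finset.card_pair hxy, h2]

/-- a vertex of small degree -/
theorem exists_small_degree {m : V → V → ℕ} (hQ : Sparse m) {S : Finset V} (hS : S.Nonempty) :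
    ∃ v ∈ S, ∑ q ∈ S, m v q ≤ 3 := by
  by_contra hcon
  push Not at hcon
  have h1 := hQ S hS
  have h2 : S.card • 4 ≤ ∑ p ∈ S, ∑ q ∈ S, m p q :=
    Finset.card_nsmul_le_sum S _ 4 (fun p hp => hcon p hp)
  rw [smul_eq_mul] at h2
  unfold wt at h1
  omega

/-- a function with small sum is a sum of indicator functions -/
theorem exists_list_of_sum (S : Finset V) (n : ℕ) : ∀ f : V → ℕ, (∀ q, q ∉ S → f q = 0) →
    ∑ q ∈ S, f q = n → ∃ l : List V, l.length = n ∧
      ∀ q, f q = (l.map (fun x => if q = x then 1 else 0)).sum := by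
  induction n with
  | zero =>
    intro f hf hsum
    refine ⟨[], rfl, fun q => ?_⟩
    by_cases hq : q ∈ S
    · simpa using (Finset.sum_eq_zero_iff.mp hsum) q hq
    · simpa using hf q hq
  | succ n ih =>
    intro f hf hsum
    obtain ⟨x, hx, hfx⟩ : ∃ x ∈ S, f x ≠ 0 := by
      by_contra hcon
      push Not at hcon
      rw [Finset.sum_eq_zero hcon] at hsum
      omega
    have hfeq : ∀ q, f q = (if q = x then 1 else 0) + (f q - if q = x then 1 else 0) := by
      intro q
      by_cases h : q = x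
      · rw [if_pos h]
        have : f q ≠ 0 := h ▸ hfx
        omega
      · rw [if_neg h]; omega
    obtain ⟨l, hl1, hl2⟩ := ih (fun q => f q - if q = x then 1 else 0) (by
      intro q hq
      have := hf q hq
      omega) (by
      have h1 : ∑ q ∈ S, f q = ∑ q ∈ S, (if q = x then 1 else 0) +
          ∑ q ∈ S, (f q - if q = x then 1 else 0) := by
        rw [← Finset.sum_add_distrib]
        exact Finset.sum_congr rfl (fun q _ => hfeq q)
      rw [Finset.sum_ite_eq', if_pos hx] at h1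
      omega)
    refine ⟨x :: l, by simp [hl1], fun q => ?_⟩
    rw [List.map_cons, List.sum_cons, ← hl2 q]
    exact hfeq q

end Pool.Agent.Helper83.SA
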